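import Pool.Agent.Helper30.UP.Defs

/-!
# Project UP: basic Fourier analysis on `F_2 ^ c` (all proved here; every module may import this file)
-/

set_option autoImplicit false

noncomputable section

namespace Pool.Agent.Helper30.UP

open Finset
open scoped Classical

theorem z2 (a : ZMod 2) : a = 0 ∨ a = 1 := by
  fin_cases a
  · exact Or.inl rfl
  · exact Or.inr rfl

theorem z2_add_self (a : ZMod 2) : a + a = 0 := by
  rcases z2 a with h | h <;> rw [h] <;> rfl

theorem E_add_self {c : ℕ} (v : E c) : v + v = 0 := by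
  funext i
  exact z2_add_self (v i)

theorem E_neg {c : ℕ} (v : E c) : -v = v := by
  rw [neg_eq_iff_add_eq_zero]
  exact E_add_self v

theorem E_add_eq_zero {c : ℕ} (v w : E c) : v + w = 0 ↔ v = w := by
  constructor
  · intro h
    have := eq_neg_of_add_eq_zero_left h
    rwa [E_neg] at this
  · rintro rfl
    exact E_add_self v

theorem E_add_add {c : ℕ} (v w : E c) : v + (v + w) = w := by
  rw [← add_assoc, E_add_self, zero_add]

theorem chi_cases {c : ℕ} (x v : E c) :
    (x ⬝ᵥ v = 0 ∧ chi x v = 1) ∨ (x ⬝ᵥ v = 1 ∧ chi x v = -1) := by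
  unfold chi
  rcases z2 (x ⬝ᵥ v) with h | h
  · left; exact ⟨h, if_pos h⟩
  · right
    refine ⟨h, if_neg ?_⟩
    rw [h]
    exact one_ne_zero

theorem chi_comm {c : ℕ} (x v : E c) : chi x v = chi v x := by
  unfold chi
  rw [dotProduct_comm]

theorem chi_add_right {c : ℕ} (x v w : E c) : chi x (v + w) = chi x v * chi x w := by
  have h : x ⬝ᵥ (v + w) = x ⬝ᵥ v + x ⬝ᵥ w := dotProduct_add _ _ _
  rcases chi_cases x v with ⟨h1, h2⟩ | ⟨h1, h2⟩ <;> rcases chi_cases x w with ⟨h3, h4⟩ | ⟨h3, h4⟩ <;>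
    rcases chi_cases x (v + w) with ⟨h5, h6⟩ | ⟨h5, h6⟩ <;> rw [h2, h4, h6] <;>
    rw [h, h1, h3] at h5 <;> first | (exfalso; revert h5; decide) | norm_num

theorem chi_add_left {c : ℕ} (x y v : E c) : chi (x + y) v = chi x v * chi y v := by
  rw [chi_comm, chi_add_right, chi_comm v x, chi_comm v y]

@[simp] theorem chi_zero_right {c : ℕ} (x : E c) : chi x 0 = 1 := by
  unfold chi
  rw [dotProduct_zero, if_pos rfl]

@[simp] theorem chi_zero_left {c : ℕ} (v : E c) : chi 0 v = 1 := by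
  rw [chi_comm, chi_zero_right]

theorem chi_sq {c : ℕ} (x v : E c) : chi x v * chi x v = 1 := by
  rcases chi_cases x v with ⟨_, h⟩ | ⟨_, h⟩ <;> rw [h] <;> norm_num

theorem abs_chi {c : ℕ} (x v : E c) : |chi x v| = 1 := by
  rcases chi_cases x v with ⟨_, h⟩ | ⟨_, h⟩ <;> rw [h] <;> norm_num

theorem chi_le {c : ℕ} (x v : E c) : chi x v ≤ 1 := (le_abs_self _).trans (abs_chi x v).le

theorem neg_le_chi {c : ℕ} (x v : E c) : -1 ≤ chi x v := by
  have := neg_abs_le (chi x v)
  rwa [abs_chi] at this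

theorem card_E (c : ℕ) : Fintype.card (E c) = 2 ^ c := by
  simp [E]

theorem exists_dot {c : ℕ} (v : E c) (hv : v ≠ 0) : ∃ x : E c, x ⬝ᵥ v = 1 := by
  obtain ⟨i, hi⟩ := Function.ne_iff.1 hv
  refine ⟨Pi.single i 1, ?_⟩
  rw [single_one_dotProduct]
  rcases z2 (v i) with h | h
  · exact absurd h hi
  · exact h

theorem mem_el {c : ℕ} (W : Submodule (ZMod 2) (E c)) (x : E c) : x ∈ el W ↔ x ∈ W := by
  simp [el]

theorem card_el {c : ℕ} (W : Submodule (ZMod 2) (E c)) : (el W).card = Nat.card W := by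
  rw [Nat.card_eq_fintype_card, Fintype.card_subtype]
  rfl

theorem card_pos {c : ℕ} (W : Submodule (ZMod 2) (E c)) : 0 < Nat.card W := Nat.card_pos

theorem card_top {c : ℕ} : Nat.card (⊤ : Submodule (ZMod 2) (E c)) = 2 ^ c := by
  rw [← card_el, ← card_E c]
  have : el (⊤ : Submodule (ZMod 2) (E c)) = univ := by ext x; simp [mem_el]
  rw [this, card_univ]

theorem card_mono {c : ℕ} {W W' : Submodule (ZMod 2) (E c)} (h : W ≤ W') : Nat.card W ≤ Nat.card W' := by
  rw [← card_el, ← card_el]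
  refine card_le_card fun x hx => ?_
  rw [mem_el] at hx ⊢
  exact h hx

theorem mem_perp {c : ℕ} (W : Submodule (ZMod 2) (E c)) (v : E c) :
    v ∈ perp W ↔ ∀ x ∈ W, x ⬝ᵥ v = 0 := Iff.rfl

/-- a sum over a finset that is invariant under translation by `y` -/
theorem sum_el_chi {c : ℕ} (W : Submodule (ZMod 2) (E c)) (v : E c) :
    ∑ x ∈ el W, chi x v = if v ∈ perp W then (Nat.card W : ℝ) else 0 := by
  split_ifs with h
  · have h1 : ∀ x ∈ el W, chi x v = 1 := by
      intro x hx
      rw [mem_el] at hx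
      unfold chi
      rw [if_pos (h x hx)]
    rw [sum_congr rfl h1, sum_const, nsmul_eq_mul, mul_one, card_el]
  · rw [mem_perp] at h
    push Not at h
    obtain ⟨y, hy, hyv⟩ := h
    have hc : chi y v = -1 := by
      unfold chi
      rw [if_neg hyv]
    have h1 : ∑ x ∈ el W, chi x v = ∑ x ∈ el W, chi (x + y) v := by
      refine sum_nbij' (fun x => x + y) (fun x => x + y) ?_ ?_ ?_ ?_ ?_
      · intro x hx; rw [mem_el] at hx ⊢; exact W.add_mem hx hy
      · intro x hx; rw [mem_el] at hx ⊢; exact W.add_mem hx hy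
      · intro x _; rw [add_assoc, E_add_self, add_zero]
      · intro x _; rw [add_assoc, E_add_self, add_zero]
      · intro x _
        rw [add_assoc, E_add_self, add_zero]
    have h2 : ∑ x ∈ el W, chi (x + y) v = -∑ x ∈ el W, chi x v := by
      rw [← sum_neg_distrib]
      refine sum_congr rfl fun x _ => ?_
      rw [chi_add_left, hc]
      ring
    linarith

theorem perp_top {c : ℕ} : perp (⊤ : Submodule (ZMod 2) (E c)) = ⊥ := by
  rw [eq_bot_iff]
  intro v hv
  rw [Submodule.mem_bot]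
  by_contra h
  obtain ⟨x, hx⟩ := exists_dot v h
  have := hv x Submodule.mem_top
  rw [hx] at this
  exact one_ne_zero this

theorem perp_bot {c : ℕ} : perp (⊥ : Submodule (ZMod 2) (E c)) = ⊤ := by
  rw [eq_top_iff]
  intro v _ x hx
  rw [Submodule.mem_bot] at hx
  rw [hx]
  exact zero_dotProduct v

theorem sum_chi {c : ℕ} (v : E c) : ∑ x : E c, chi x v = if v = 0 then (2 : ℝ) ^ c else 0 := by
  have h := sum_el_chi (⊤ : Submodule (ZMod 2) (E c)) v
  rw [perp_top, card_top] at h
  have h1 : el (⊤ : Submodule (ZMod 2) (E c)) = univ := by ext x; simp [mem_el]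
  rw [h1] at h
  rw [h]
  simp

theorem sum_chi' {c : ℕ} (x : E c) : ∑ v : E c, chi x v = if x = 0 then (2 : ℝ) ^ c else 0 := by
  rw [← sum_chi x]
  exact sum_congr rfl fun v _ => chi_comm x v

theorem card_perp {c : ℕ} (W : Submodule (ZMod 2) (E c)) : Nat.card W * Nat.card (perp W) = 2 ^ c := by
  have h1 : ∑ v : E c, ∑ x ∈ el W, chi x v = (Nat.card W : ℝ) * Nat.card (perp W) := by
    rw [sum_congr rfl fun v _ => sum_el_chi W v, ← sum_filter, sum_const, nsmul_eq_mul, mul_comm]
    congr 1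
    have : (univ.filter (fun v => v ∈ perp W)) = el (perp W) := rfl
    rw [this, card_el]
  have h2 : ∑ v : E c, ∑ x ∈ el W, chi x v = (2 : ℝ) ^ c := by
    rw [sum_comm, sum_congr rfl fun x _ => sum_chi' x]
    rw [sum_ite_eq' (el W) 0]
    rw [if_pos ((mem_el W 0).2 W.zero_mem)]
  rw [h1] at h2
  exact_mod_cast h2

theorem perp_anti {c : ℕ} {W W' : Submodule (ZMod 2) (E c)} (h : W ≤ W') : perp W' ≤ perp W :=
  fun _ hv x hx => hv x (h hx)

theorem perp_perp {c : ℕ} (W : Submodule (ZMod 2) (E c)) : perp (perp W) = W := by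
  have h1 : W ≤ perp (perp W) := by
    intro x hx v hv
    rw [dotProduct_comm]
    exact hv x hx
  have h2 := card_perp W
  have h3 := card_perp (perp W)
  have h4 : Nat.card (perp (perp W)) = Nat.card W := by
    have h5 : 0 < Nat.card (perp W) := card_pos _
    have h6 : Nat.card (perp W) * Nat.card (perp (perp W)) = Nat.card (perp W) * Nat.card W := by
      rw [h3, ← h2, mul_comm]
    exact Nat.eq_of_mul_eq_mul_left h5 h6
  have h5 : el W = el (perp (perp W)) := by
    refine eq_of_subset_of_card_le ?_ ?_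
    · intro x hx
      rw [mem_el] at hx ⊢
      exact h1 hx
    · rw [card_el, card_el, h4]
  ext x
  rw [← mem_el, ← h5, mem_el]

theorem perp_inj {c : ℕ} {W W' : Submodule (ZMod 2) (E c)} (h : perp W = perp W') : W = W' := by
  rw [← perp_perp W, h, perp_perp]

/-- weight and Fourier transform -/
theorem Fh_eq {c n : ℕ} (s : Fin n → E c) (x : E c) : Fh s x = n - 2 * wt s x := by
  unfold Fh wt
  have h1 : ∀ i : Fin n, chi x (s i) = 1 - 2 * (if x ⬝ᵥ s i ≠ 0 then 1 else 0) := by
    intro i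
    unfold chi
    by_cases h : x ⬝ᵥ s i = 0
    · rw [if_pos h, if_neg (not_not.2 h)]; ring
    · rw [if_neg h, if_pos h]; ring
  rw [sum_congr rfl fun i _ => h1 i, sum_sub_distrib, ← mul_sum, sum_const, card_univ,
    Fintype.card_fin, nsmul_eq_mul, mul_one, card_filter]
  push_cast
  rfl

theorem wt_zero {c n : ℕ} (s : Fin n → E c) : wt s 0 = 0 := by
  unfold wt
  rw [card_eq_zero, filter_eq_empty_iff]
  intro i _
  rw [zero_dotProduct]
  exact not_not.2 rfl

theorem Fh_zero {c n : ℕ} (s : Fin n → E c) : Fh s 0 = n := by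
  rw [Fh_eq, wt_zero]
  simp

theorem wt_le {c n : ℕ} (s : Fin n → E c) (x : E c) : wt s x ≤ n := by
  unfold wt
  refine (card_filter_le _ _).trans ?_
  simp

theorem Fh_le {c n : ℕ} (s : Fin n → E c) (x : E c) : Fh s x ≤ n := by
  rw [Fh_eq]
  have : (0 : ℝ) ≤ wt s x := Nat.cast_nonneg _
  linarith

theorem abs_Fh_le {c n : ℕ} (s : Fin n → E c) (x : E c) : |Fh s x| ≤ n := by
  unfold Fh
  refine (abs_sum_le_sum_abs _ _).trans ?_
  simp [abs_chi]

/-- Poisson: the sum of `Fh` over a subspace with a character -/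
theorem sum_el_Fh {c n : ℕ} (s : Fin n → E c) (W : Submodule (ZMod 2) (E c)) (v : E c) :
    ∑ x ∈ el W, Fh s x * chi x v =
      (Nat.card W : ℝ) * ((univ.filter (fun i => s i + v ∈ perp W)).card : ℕ) := by
  unfold Fh
  have h1 : ∀ x ∈ el W, (∑ i, chi x (s i)) * chi x v = ∑ i, chi x (s i + v) := by
    intro x _
    rw [sum_mul]
    exact sum_congr rfl fun i _ => (chi_add_right x (s i) v).symm
  rw [sum_congr rfl h1, sum_comm, sum_congr rfl fun i _ => sum_el_chi W (s i + v), ← sum_filter,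
    sum_const, nsmul_eq_mul, mul_comm]

/-- Poisson, trivial character -/
theorem sum_el_Fh' {c n : ℕ} (s : Fin n → E c) (W : Submodule (ZMod 2) (E c)) :
    ∑ x ∈ el W, Fh s x = (Nat.card W : ℝ) * zc s W := by
  have h := sum_el_Fh s W 0
  simp only [chi_zero_right, mul_one, add_zero] at h
  exact h

/-- the average over a coset -/
theorem sum_coset_Fh {c n : ℕ} (s : Fin n → E c) (W : Submodule (ZMod 2) (E c)) (x : E c) :
    ∑ y ∈ el W, Fh s (x + y) =
      (Nat.card W : ℝ) * ∑ i ∈ univ.filter (fun i => s i ∈ perp W), chi x (s i) := by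
  unfold Fh
  simp only [chi_add_left]
  rw [sum_comm]
  have h1 : ∀ i : Fin n, ∑ y ∈ el W, chi x (s i) * chi y (s i) =
      if s i ∈ perp W then (Nat.card W : ℝ) * chi x (s i) else 0 := by
    intro i
    rw [← mul_sum, sum_el_chi]
    split_ifs
    · ring
    · ring
  rw [sum_congr rfl fun i _ => h1 i, ← sum_filter, mul_sum]

/-- Parseval for a finite family -/
theorem parseval_fam {c : ℕ} {ι : Type*} (I : Finset ι) (s : ι → E c) :
    ∑ x : E c, (∑ i ∈ I, chi x (s i)) ^ 2 =
      (2 : ℝ) ^ c * (((I ×ˢ I).filter (fun p => s p.1 = s p.2)).card : ℕ) := by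
  have h1 : ∀ x : E c, (∑ i ∈ I, chi x (s i)) ^ 2 = ∑ p ∈ I ×ˢ I, chi x (s p.1 + s p.2) := by
    intro x
    rw [pow_two, sum_mul_sum, sum_product]
    exact sum_congr rfl fun i _ => sum_congr rfl fun j _ => (chi_add_right x _ _).symm
  rw [sum_congr rfl fun x _ => h1 x, sum_comm, sum_congr rfl fun p _ => sum_chi (s p.1 + s p.2)]
  rw [← sum_filter, sum_const, nsmul_eq_mul, mul_comm]
  congr 2
  simp only [E_add_eq_zero]

/-- Parseval for a set of distinct columns -/
theorem parseval_inj {c : ℕ} {ι : Type*} (I : Finset ι) (s : ι → E c)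
    (hs : ∀ i ∈ I, ∀ j ∈ I, s i = s j → i = j) :
    ∑ x : E c, (∑ i ∈ I, chi x (s i)) ^ 2 = (2 : ℝ) ^ c * (I.card : ℕ) := by
  rw [parseval_fam]
  congr 2
  have : (I ×ˢ I).filter (fun p => s p.1 = s p.2) = I.image (fun i => (i, i)) := by
    ext ⟨i, j⟩
    rw [mem_filter, mem_product, mem_image]
    constructor
    · rintro ⟨⟨hi, hj⟩, h⟩
      exact ⟨i, hi, by rw [hs i hi j hj h]⟩
    · rintro ⟨a, ha, h⟩
      rw [Prod.mk.injEq] at h
      obtain ⟨rfl, rfl⟩ := h
      exact ⟨⟨ha, ha⟩, rfl⟩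
  rw [this, card_image_of_injective]
  intro i j h
  exact (Prod.mk.inj h).1

end Pool.Agent.Helper30.UP
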