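import Pool.Agent.Helper30.UP.St
import Pool.Agent.Helper26.CovL.Num

/-!
# Project UP, module SH: direct sums of Hamming codes
-/

set_option autoImplicit false

noncomputable section

namespace Pool.Agent.Helper30.UP

open Finset
open scoped Classical

/-- if the columns are different and nonzero then the kernel has minimum distance at least `3` -/
theorem min_dist {X : Type*} [AddCommGroup X] [Module (ZMod 2) X] {n : ℕ} (s : Fin n → X)
    (hs : Function.Injective s) (h0 : ∀ i, s i ≠ 0) (u : Fin n → ZMod 2)
    (hu : ∑ i, u i • s i = 0) (hu0 : u ≠ 0) : 3 ≤ hammingNorm u := by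
  set T := univ.filter (fun i => u i ≠ 0) with hT
  have hn : hammingNorm u = T.card := rfl
  have hsum : ∑ i ∈ T, s i = 0 := by
    have h1 : ∀ i, u i • s i = if u i ≠ 0 then s i else 0 := by
      intro i
      rcases z2 (u i) with h | h
      · rw [h, zero_smul, if_neg (not_not.2 rfl)]
      · rw [h, one_smul, if_pos one_ne_zero]
    rw [sum_congr rfl fun i _ => h1 i, ← sum_filter] at hu
    exact hu
  rw [hn]
  by_contra hcon
  have hle : T.card ≤ 2 := by omega
  have hchar : ∀ x : X, x + x = 0 := by
    intro x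
    have : (1 : ZMod 2) • x + (1 : ZMod 2) • x = ((1 : ZMod 2) + 1) • x := (add_smul _ _ _).symm
    rw [one_smul] at this
    rw [this]
    have h2 : (1 : ZMod 2) + 1 = 0 := rfl
    rw [h2, zero_smul]
  interval_cases h : T.card
  · rw [card_eq_zero] at h
    apply hu0
    funext i
    by_contra hi
    have : i ∈ T := by rw [hT, mem_filter]; exact ⟨mem_univ _, hi⟩
    rw [h] at this
    exact notMem_empty _ this
  · rw [card_eq_one] at h
    obtain ⟨a, ha⟩ := h
    rw [ha, sum_singleton] at hsum
    exact h0 a hsum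
  · rw [card_eq_two] at h
    obtain ⟨a, b, hab, hT'⟩ := h
    rw [hT', sum_pair hab] at hsum
    apply hab
    apply hs
    have h3 := hchar (s b)
    exact add_right_cancel (hsum.trans h3.symm)

theorem card_odd (m : ℕ) (hm : 1 ≤ m) (x : E m) (hx : x ≠ 0) :
    (univ.filter (fun v : E m => x ⬝ᵥ v ≠ 0)).card = 2 ^ (m - 1) := by
  have h1 := sum_chi' x
  rw [if_neg hx] at h1
  have h2 : ∀ v : E m, chi x v = 1 - 2 * (if x ⬝ᵥ v ≠ 0 then 1 else 0) := by
    intro v
    unfold chi
    by_cases h : x ⬝ᵥ v = 0
    · rw [if_pos h, if_neg (not_not.2 h)]; ring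
    · rw [if_neg h, if_pos h]; ring
  rw [sum_congr rfl fun v _ => h2 v, sum_sub_distrib, ← mul_sum, sum_const, card_univ, card_E,
    nsmul_eq_mul, mul_one] at h1
  have h3 : (∑ v : E m, (if x ⬝ᵥ v ≠ 0 then (1 : ℝ) else 0)) =
      ((univ.filter (fun v : E m => x ⬝ᵥ v ≠ 0)).card : ℝ) := by
    rw [card_filter]
    push_cast
    rfl
  rw [h3] at h1
  have h4 : (2 : ℝ) ^ m = 2 * 2 ^ (m - 1) := by
    rw [← pow_succ']
    congr 1
    omega
  push_cast at h1
  rw [h4] at h1
  have h5 : ((univ.filter (fun v : E m => x ⬝ᵥ v ≠ 0)).card : ℝ) = 2 ^ (m - 1) := by linarith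
  exact_mod_cast h5

theorem hSH : StSH := by
  intro r ε M hr hε
  set m : ℕ := M + 2 with hm
  set n : ℕ := r * (2 ^ m - 1) with hn
  -- the index set
  have hcardI : Fintype.card (Fin r × {v : E m // v ≠ 0}) = n := by
    rw [Fintype.card_prod, Fintype.card_fin, hn]
    congr 1
    rw [Fintype.card_subtype_compl, Fintype.card_subtype_eq, card_E]
  let e : (Fin r × {v : E m // v ≠ 0}) ≃ Fin n := Fintype.equivFinOfCardEq hcardI
  let s : Fin n → (Fin r → E m) := fun i => Pi.single (e.symm i).1 ((e.symm i).2 : E m)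
  have hs0 : ∀ i, s i ≠ 0 := by
    intro i h
    have := congrFun h (e.symm i).1
    simp only [s, Pi.single_eq_same, Pi.zero_apply] at this
    exact (e.symm i).2.2 this
  have hsinj : Function.Injective s := by
    intro i i' h
    apply e.symm.injective
    have h1 : (e.symm i).1 = (e.symm i').1 := by
      by_contra hne
      have := congrFun h (e.symm i).1
      simp only [s, Pi.single_eq_same] at this
      rw [Pi.single_eq_of_ne hne] at this
      exact (e.symm i).2.2 this
    refine Prod.ext h1 (Subtype.ext ?_)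
    have h2 := congrFun h (e.symm i).1
    simp only [s, Pi.single_eq_same] at h2
    rw [h1, Pi.single_eq_same] at h2
    exact h2
  let Φ : (Fin n → ZMod 2) →ₗ[ZMod 2] (Fin r → E m) :=
    { toFun := fun u => ∑ i, u i • s i
      map_add' := by
        intro u v
        simp only [Pi.add_apply, add_smul, sum_add_distrib]
      map_smul' := by
        intro a u
        simp only [Pi.smul_apply, smul_eq_mul, mul_smul, RingHom.id_apply, smul_sum] }
  let V : Submodule (ZMod 2) (Fin n → ZMod 2) := LinearMap.ker Φ
  have hVmem : ∀ u, u ∈ V ↔ ∑ i, u i • s i = 0 := by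
    intro u
    exact LinearMap.mem_ker
  -- surjectivity
  have hsurj : Function.Surjective Φ := by
    intro y
    let u : Fin n → ZMod 2 := fun i => if y (e.symm i).1 = ((e.symm i).2 : E m) then 1 else 0
    refine ⟨u, ?_⟩
    show ∑ i, u i • s i = y
    rw [← Equiv.sum_comp e]
    simp only [u, s, Equiv.symm_apply_apply]
    rw [Fintype.sum_prod_type]
    funext j
    rw [Finset.sum_apply]
    have h1 : ∀ j' : Fin r, (∑ v : {v : E m // v ≠ 0},
        (if y j' = (v : E m) then (1 : ZMod 2) else 0) • (Pi.single j' (v : E m) : Fin r → E m)) j =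
        if j' = j then y j else 0 := by
      intro j'
      rw [Finset.sum_apply]
      by_cases hj : j' = j
      · subst hj
        rw [if_pos rfl]
        simp only [Pi.smul_apply, Pi.single_eq_same]
        by_cases hy : y j' = 0
        · rw [hy]
          refine sum_eq_zero fun v _ => ?_
          rw [if_neg (fun h => v.2 h.symm), zero_smul]
        · rw [sum_eq_single (⟨y j', hy⟩ : {v : E m // v ≠ 0})]
          · rw [if_pos rfl, one_smul]
          · intro v _ hv
            rw [if_neg, zero_smul]
            intro h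
            exact hv (Subtype.ext h.symm)
          · intro h
            exact absurd (mem_univ _) h
      · rw [if_neg hj]
        refine sum_eq_zero fun v _ => ?_
        rw [Pi.smul_apply, Pi.single_eq_of_ne (Ne.symm hj), smul_zero]
    rw [sum_congr rfl fun j' _ => h1 j', sum_ite_eq' univ j]
    rw [if_pos (mem_univ _)]
  have hX : Nat.card (Fin r → E m) = (2 ^ m) ^ r := by
    rw [Nat.card_eq_fintype_card, Fintype.card_fun, card_E, Fintype.card_fin]
  have hcardV : Nat.card V * (2 ^ m) ^ r = 2 ^ n := by
    have h1 := Submodule.card_eq_card_quotient_mul_card V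
    have h2 : Nat.card ((Fin n → ZMod 2) ⧸ V) = (2 ^ m) ^ r := by
      rw [← hX]
      exact Nat.card_congr (LinearMap.quotKerEquivOfSurjective Φ hsurj).toEquiv
    have h3 : Nat.card (Fin n → ZMod 2) = 2 ^ n := by
      rw [Nat.card_eq_fintype_card]
      exact card_E n
    rw [h2, h3] at h1
    rw [h1, mul_comm]
  -- the dual code
  let wx : (Fin r → E m) → (Fin n → ZMod 2) := fun x i => ∑ j, x j ⬝ᵥ s i j
  have hwx : ∀ x i, wx x i = x (e.symm i).1 ⬝ᵥ ((e.symm i).2 : E m) := by
    intro x i
    show ∑ j, x j ⬝ᵥ s i j = _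
    rw [sum_eq_single (e.symm i).1]
    · simp only [s, Pi.single_eq_same]
    · intro j _ hj
      simp only [s]
      rw [Pi.single_eq_of_ne hj, dotProduct_zero]
    · intro h
      exact absurd (mem_univ _) h
  have hwperp : ∀ x, wx x ∈ perp V := by
    intro x u hu
    rw [hVmem] at hu
    show ∑ i, u i * wx x i = 0
    have h1 : ∀ i, u i * wx x i = ∑ j, x j ⬝ᵥ ((u i • s i) j) := by
      intro i
      show u i * ∑ j, x j ⬝ᵥ s i j = _
      rw [mul_sum]
      refine sum_congr rfl fun j _ => ?_
      rw [Pi.smul_apply, dotProduct_smul, smul_eq_mul]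
    rw [sum_congr rfl fun i _ => h1 i, sum_comm]
    refine sum_eq_zero fun j _ => ?_
    rw [← dotProduct_sum]
    have h2 : ∑ i, (u i • s i) j = (∑ i, u i • s i) j := by rw [Finset.sum_apply]
    rw [h2, hu, Pi.zero_apply, dotProduct_zero]
  have hwinj : Function.Injective wx := by
    intro x y h
    funext j
    by_contra hne
    have hd : x j + y j ≠ 0 := by
      intro h0
      exact hne ((E_add_eq_zero _ _).1 h0)
    obtain ⟨v, hv⟩ := exists_dot (x j + y j) hd
    have hv0 : v ≠ 0 := by
      rintro rfl
      rw [zero_dotProduct] at hv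
      exact one_ne_zero hv.symm
    have h1 := congrFun h (e (j, ⟨v, hv0⟩))
    rw [hwx, hwx, Equiv.symm_apply_apply] at h1
    simp only at h1
    rw [dotProduct_comm, add_dotProduct, h1, z2_add_self] at hv
    exact one_ne_zero hv.symm
  have hperp : ∀ w, w ∈ perp V → ∃ x, wx x = w := by
    have h1 : Nat.card (perp V) = (2 ^ m) ^ r := by
      have h2 := card_perp V
      have h3 : 0 < Nat.card V := card_pos V
      have h4 : Nat.card V * Nat.card (perp V) = Nat.card V * (2 ^ m) ^ r := by rw [h2, hcardV]
      exact Nat.eq_of_mul_eq_mul_left h3 h4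
    have h5 : univ.image wx = el (perp V) := by
      refine eq_of_subset_of_card_le ?_ ?_
      · intro w hw
        rw [mem_image] at hw
        obtain ⟨x, _, rfl⟩ := hw
        rw [mem_el]
        exact hwperp x
      · rw [card_el, h1, card_image_of_injective _ hwinj, card_univ, ← hX,
          Nat.card_eq_fintype_card]
    intro w hw
    rw [← mem_el, ← h5, mem_image] at hw
    obtain ⟨x, _, hx⟩ := hw
    exact ⟨x, hx⟩
  have hwt : ∀ x, hammingNorm (wx x) = 2 ^ (m - 1) * (univ.filter (fun j => x j ≠ 0)).card := by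
    intro x
    have h1 : hammingNorm (wx x) = (univ.filter (fun i => wx x i ≠ 0)).card := rfl
    rw [h1, card_filter, ← Equiv.sum_comp e]
    simp only [hwx, Equiv.symm_apply_apply]
    rw [Fintype.sum_prod_type]
    have h2 : ∀ j : Fin r, (∑ v : {v : E m // v ≠ 0}, if x j ⬝ᵥ (v : E m) ≠ 0 then 1 else 0) =
        if x j ≠ 0 then 2 ^ (m - 1) else 0 := by
      intro j
      by_cases hj : x j = 0
      · rw [if_neg (not_not.2 hj), hj]
        refine sum_eq_zero fun v _ => ?_
        rw [zero_dotProduct, if_neg (not_not.2 rfl)]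
      · rw [if_pos hj, ← card_odd m (by omega) (x j) hj, card_filter]
        have h3 := Fintype.sum_subtype_add_sum_subtype (fun v : E m => v ≠ 0)
          (fun v : E m => if x j ⬝ᵥ v ≠ 0 then 1 else 0)
        rw [← h3]
        have h4 : (∑ v : {v : E m // ¬ v ≠ 0}, if x j ⬝ᵥ (v : E m) ≠ 0 then 1 else 0) = 0 := by
          refine sum_eq_zero fun v _ => ?_
          have hv : (v : E m) = 0 := not_not.1 v.2
          rw [hv, dotProduct_zero, if_neg (not_not.2 rfl)]
        rw [h4, add_zero]
    rw [sum_congr rfl fun j _ => h2 j, ← sum_filter, sum_const, smul_eq_mul, mul_comm]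
  refine ⟨n, V, ?_, ?_, ?_, ?_⟩
  · have h1 : M < 2 ^ M := Nat.lt_two_pow_self
    have h2 : 2 ^ m = 2 ^ M * 4 := by rw [hm, pow_add]; norm_num
    have h3 : 1 * (2 ^ m - 1) ≤ n := by rw [hn]; exact Nat.mul_le_mul_right _ hr
    omega
  · intro v hv hv0
    exact min_dist s hsinj hs0 v ((hVmem v).1 hv) hv0
  · have h1 : dw V ⊆ (Icc 1 r).image (fun k => 2 ^ (m - 1) * k) := by
      intro w hw
      rw [dw, mem_image] at hw
      obtain ⟨u, hu, rfl⟩ := hw
      rw [mem_filter] at hu
      obtain ⟨x, rfl⟩ := hperp u hu.2.2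
      rw [mem_image]
      refine ⟨(univ.filter (fun j => x j ≠ 0)).card, ?_, (hwt x).symm⟩
      rw [mem_Icc]
      constructor
      · by_contra hcon
        have h0 : (univ.filter (fun j => x j ≠ 0)).card = 0 := by omega
        have h2 : hammingNorm (wx x) = 0 := by rw [hwt, h0, mul_zero]
        exact hu.2.1 (hammingNorm_eq_zero.1 h2)
      · refine (card_filter_le _ _).trans ?_
        rw [card_univ, Fintype.card_fin]
    refine (card_le_card h1).trans (card_image_le.trans ?_)
    rw [Nat.card_Icc]
    omega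
  · unfold dens
    have hball := Pool.Agent.Helper26.CovL.card_ball_le n r
    set B := (univ.filter (fun x : Fin n → ZMod 2 => hammingNorm x ≤ r)).card with hB
    have hf : (0 : ℝ) < r.factorial := by exact_mod_cast r.factorial_pos
    have h1 : (B : ℝ) * r.factorial ≤ (r : ℝ) ^ r * (2 ^ m) ^ r := by
      have h2 : (n + r).choose r * r.factorial ≤ (n + r) ^ r := by
        rw [mul_comm, ← Nat.descFactorial_eq_factorial_mul_choose]
        exact Nat.descFactorial_le_pow _ _
      have h3 : n + r = r * 2 ^ m := by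
        have : 1 ≤ 2 ^ m := Nat.one_le_two_pow
        rw [hn, Nat.mul_sub, mul_one]
        have : r ≤ r * 2 ^ m := Nat.le_mul_of_pos_right _ (by positivity)
        omega
      have h4 : B * r.factorial ≤ r ^ r * (2 ^ m) ^ r := by
        calc B * r.factorial ≤ (n + r).choose r * r.factorial := Nat.mul_le_mul_right _ (by
              convert hball using 2)
          _ ≤ (n + r) ^ r := h2
          _ = r ^ r * (2 ^ m) ^ r := by rw [h3, mul_pow]
      exact_mod_cast h4
    have h5 : (Nat.card V : ℝ) * (2 ^ m) ^ r = 2 ^ n := by exact_mod_cast hcardV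
    have h6 : (0 : ℝ) < (2 ^ m) ^ r := by positivity
    have h7 : (0 : ℝ) < Nat.card V := by exact_mod_cast card_pos V
    have h8 : (Nat.card V : ℝ) * (B : ℝ) / 2 ^ n ≤ (r : ℝ) ^ r / r.factorial := by
      rw [← h5, mul_div_mul_left _ _ h7.ne', div_le_div_iff₀ h6 hf]
      exact h1
    refine h8.trans ?_
    have h9 : 0 ≤ (r : ℝ) ^ r / r.factorial := by positivity
    nlinarith

end Pool.Agent.Helper30.UP
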