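import Pool.Agent.Helper30.UP.M_FIN
import Pool.Agent.Helper30.UP.M_SH
import Pool.Agent.Helper12.UP.M_C10
import Pool.Agent.Helper16.UP.M_RES
import Pool.Agent.Helper27.UP.M_DRC
import Pool.Agent.Helper27.UP.M_LL
import Pool.Agent.Helper28.UP.M_STEP
import Pool.Agent.Helper3.UP.M_DE
import Pool.Agent.Helper36.UP.M_CH
import Pool.Agent.Helper38.UP.M_D2
import Pool.Agent.Helper4.UP.M_PUR
import Pool.Agent.Helper40.UP.M_TW
import Pool.Agent.Helper42.UP.M_A1
import Pool.Agent.Helper42.UP.M_A2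
import Pool.Agent.Helper42.UP.M_BN
import Pool.Agent.Helper45.UP.M_C1
import Pool.Agent.Helper45.UP.M_FR
import Pool.Agent.Helper51.UP.M_TY
import Pool.Agent.Helper54.UP.M_C6
import Pool.Agent.Helper54.UP.M_C7
import Pool.Agent.Helper56.UP.M_D0
import Pool.Agent.Helper58.UP.M_C2
import Pool.Agent.Helper58.UP.M_C3
import Pool.Agent.Helper58.UP.M_C4
import Pool.Agent.Helper58.UP.M_C5
import Pool.Agent.Helper6.UP.M_D1
import Pool.Agent.Helper74.UP.M_SD
import Pool.Agent.Helper83.UP.M_TR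
import Pool.Agent.Helper87.UP.M_C8
import Pool.Agent.Helper91.UP.M_C9
import Pool.Agent.Helper91.UP.M_POS
import Pool.Agent.Helper95.UP.M_M

/-!
# Project UP: assembly of the modules
-/

set_option autoImplicit false

namespace Pool.Agent.Helper30.UP

theorem all_FIN : StFIN := by
  have hTY := Pool.Agent.Helper51.UP.hTY
  have hLL := Pool.Agent.Helper27.UP.hLL hTY Pool.Agent.Helper27.UP.hDRC
    Pool.Agent.Helper74.UP.hSD Pool.Agent.Helper45.UP.hFR
  have hRES := Pool.Agent.Helper16.UP.hRES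
  have hSTEP := Pool.Agent.Helper28.UP.hSTEP hRES hLL
  have hPUR := Pool.Agent.Helper4.UP.hPUR
  have hTW := Pool.Agent.Helper40.UP.hTW hRES hTY
  have hCH := Pool.Agent.Helper36.UP.hCH hPUR hTW
  have hPOS := Pool.Agent.Helper91.UP.hPOS hTY hSTEP hPUR hCH
  have h1 := Pool.Agent.Helper45.UP.hC1
  have h2 := Pool.Agent.Helper58.UP.hC2 h1
  have h3 := Pool.Agent.Helper58.UP.hC3
  have h4 := Pool.Agent.Helper58.UP.hC4 h1 h2 h3
  have h5 := Pool.Agent.Helper58.UP.hC5 h1 h4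
  have h6 := Pool.Agent.Helper54.UP.C6 h1
  have h7 := Pool.Agent.Helper54.UP.C7 h1 h6
  have h8 := Pool.Agent.Helper87.UP.hC8 h1 h6
  have h9 := Pool.Agent.Helper91.UP.hC9 h1 h6 h7 h8
  have h10 := Pool.Agent.Helper12.UP.hC10 h5 h6 h8 h9
  have hD0 := Pool.Agent.Helper56.UP.hD0
  have hD1 := Pool.Agent.Helper6.UP.hD1 hD0
  have hD2 := Pool.Agent.Helper38.UP.hD2 hD1
  have hA2 := Pool.Agent.Helper42.UP.hA2 Pool.Agent.Helper42.UP.hA1
  have hM := Pool.Agent.Helper95.UP.hM hA2 hPOS h10 hD2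
  exact hFIN Pool.Agent.Helper83.UP.hTR Pool.Agent.Helper3.UP.hDE Pool.Agent.Helper42.UP.hBN hM hSH

end Pool.Agent.Helper30.UP
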