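import Mathlib

/-!
# Project UP (MP_e73f90_co): linear covering codes certified by the external distance

Definitions. A linear code of dimension `c` and length `n` is given by its columns `s : Fin n → E c`, `E c = F_2 ^ c`; the
code word of `x` is `(x · s i)_i`.
-/

set_option autoImplicit false

noncomputable section

namespace Pool.Agent.Helper30.UP

open Finset
open scoped Classical

/-- binary vectors -/
abbrev E (c : ℕ) : Type := Fin c → ZMod 2

/-- the character `(-1) ^ (x · v)` -/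
def chi {c : ℕ} (x v : E c) : ℝ := if x ⬝ᵥ v = 0 then 1 else -1

/-- weight of the code word of `x` -/
def wt {c n : ℕ} (s : Fin n → E c) (x : E c) : ℕ := (univ.filter (fun i => x ⬝ᵥ s i ≠ 0)).card

/-- Fourier transform of the multiset of columns, `n - 2 wt` -/
def Fh {c n : ℕ} (s : Fin n → E c) (x : E c) : ℝ := ∑ i, chi x (s i)

/-- the annihilator of a subspace -/
def perp {c : ℕ} (W : Submodule (ZMod 2) (E c)) : Submodule (ZMod 2) (E c) where
  carrier := {v | ∀ x ∈ W, x ⬝ᵥ v = 0}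
  add_mem' := by
    intro v w hv hw x hx
    rw [dotProduct_add, hv x hx, hw x hx, add_zero]
  zero_mem' := by
    intro x _
    exact dotProduct_zero x
  smul_mem' := by
    intro a v hv x hx
    rw [dotProduct_smul, hv x hx, smul_zero]

/-- number of columns that vanish on `W` -/
def zc {c n : ℕ} (s : Fin n → E c) (W : Submodule (ZMod 2) (E c)) : ℕ :=
  (univ.filter (fun i => s i ∈ perp W)).card

/-- `W` is pure: every nonzero class of columns modulo the annihilator of `W` has at most `ε n` elements -/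
def Pu {c n : ℕ} (s : Fin n → E c) (ε : ℝ) (W : Submodule (ZMod 2) (E c)) : Prop :=
  ∀ v : E c, v ∉ perp W → (((univ.filter (fun i => s i + v ∈ perp W)).card : ℕ) : ℝ) ≤ ε * n

/-- the nonzero weights -/
def Om {c n : ℕ} (s : Fin n → E c) : Finset ℕ := (univ.filter (fun x : E c => x ≠ 0)).image (wt s)

/-- only the zero word has weight `0` -/
def Faithful {c n : ℕ} (s : Fin n → E c) : Prop := ∀ x : E c, x ≠ 0 → wt s x ≠ 0

/-- no zero column and no repeated column -/
def Proj {c n : ℕ} (s : Fin n → E c) : Prop := Function.Injective s ∧ ∀ i, s i ≠ 0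

/-- number of nonzero columns -/
def nz {c n : ℕ} (s : Fin n → E c) : ℕ := (univ.filter (fun i => s i ≠ 0)).card

/-- number of pairs of equal nonzero columns -/
def n2 {c n : ℕ} (s : Fin n → E c) : ℕ :=
  (univ.filter (fun p : Fin n × Fin n => s p.1 ≠ 0 ∧ s p.1 = s p.2)).card

/-- the hypotheses of part C -/
def Hyp (K : ℕ) (T : ℝ) {c n : ℕ} (D : ℕ) (s : Fin n → E c) : Prop :=
  1 ≤ D ∧ n ≤ K * D ∧ Proj s ∧ (∀ x, D ∣ wt s x) ∧ (∀ x, -T ≤ Fh s x) ∧ T ≤ n ∧ T ≤ D

/-- the words of not maximal weight -/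
def Ds {c n : ℕ} (s : Fin n → E c) : Finset (E c) := univ.filter (fun x => ∃ y, Fh s y < Fh s x)

/-- number of representations -/
def rr {c n : ℕ} (s : Fin n → E c) (z : E c) : ℕ := ((Ds s).filter (fun y => z + y ∈ Ds s)).card

/-- elements of a subspace -/
def el {c : ℕ} (W : Submodule (ZMod 2) (E c)) : Finset (E c) := univ.filter (fun x => x ∈ W)

/-- a maximal large subspace of non-typical words -/
def Blk (δ κ : ℝ) {c n : ℕ} (s : Fin n → E c) (W : Submodule (ZMod 2) (E c)) : Prop :=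
  (∀ y ∈ W, y ∈ Ds s) ∧ δ * (Ds s).card ≤ Nat.card W ∧
    ∀ x, x ∉ W → (n : ℝ) * ((el W).filter (fun y => x + y ∈ Ds s)).card ≤ κ * (Ds s).card

/-- a family of such subspaces that covers almost all non-typical words -/
def Fam (δ κ : ℝ) {c n : ℕ} (s : Fin n → E c) (F : Finset (Submodule (ZMod 2) (E c))) : Prop :=
  (∀ W ∈ F, Blk δ κ s W) ∧
  (∀ W ∈ F, ∀ W' ∈ F, W ≠ W' → (n : ℝ) * Nat.card ↥(W ⊓ W') ≤ κ * (Ds s).card) ∧
  (n : ℝ) * ((Ds s).filter (fun x => ∀ W ∈ F, x ∉ W)).card ≤ κ * (Ds s).card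

/-- the set of subspaces containing `x` -/
def Jx {c k : ℕ} (W : Fin k → Submodule (ZMod 2) (E c)) (x : E c) : Finset (Fin k) :=
  univ.filter (fun i => x ∈ W i)

/-- a chain of length `m` in `Y` -/
def Chn {c k : ℕ} (W : Fin k → Submodule (ZMod 2) (E c)) (Y : Submodule (ZMod 2) (E c)) (m : ℕ) : Prop :=
  ∃ x : Fin m → E c, (∀ j, x j ∈ Y ∧ x j ≠ 0) ∧ ∀ i j : Fin m, i < j → Jx W (x i) ⊂ Jx W (x j)

/-- the dual code -/
def dual {n : ℕ} (V : Submodule (ZMod 2) (Fin n → ZMod 2)) : Submodule (ZMod 2) (Fin n → ZMod 2) :=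
  perp V

/-- the nonzero weights of the dual code -/
def dw {n : ℕ} (V : Submodule (ZMod 2) (Fin n → ZMod 2)) : Finset ℕ :=
  (univ.filter (fun u : Fin n → ZMod 2 => u ≠ 0 ∧ ∀ v ∈ V, v ⬝ᵥ u = 0)).image (fun u => hammingNorm u)

/-- the covering density -/
def dens {n : ℕ} (V : Submodule (ZMod 2) (Fin n → ZMod 2)) (r : ℕ) : ℝ :=
  (Nat.card V : ℝ) * (((univ.filter (fun x : Fin n → ZMod 2 => hammingNorm x ≤ r)).card : ℕ) : ℝ) / (2 : ℝ) ^ n

end Pool.Agent.Helper30.UP
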