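import Pool.Agent.Helper30.UP.St

/-!
# Project UP, module FIN: final assembly
-/

set_option autoImplicit false

noncomputable section

namespace Pool.Agent.Helper30.UP

open Finset
open scoped Classical

theorem two_pow_le (r : ℕ) (hr : 1 ≤ r) : (2 : ℝ) ^ (r - 1) ≤ (r : ℝ) ^ r / r.factorial := by
  have h : 2 ^ (r - 1) * r.factorial ≤ r ^ r := by
    induction r, hr using Nat.le_induction with
    | base => norm_num
    | succ k hk ih =>
      have h1 : 2 * k ^ k ≤ (k + 1) ^ k := by
        have hb : ((1 : ℕ) + 1) * k ^ k ≤ (k + 1) ^ k := by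
          rw [add_pow]
          have h2 : ({k - 1, k} : Finset ℕ) ⊆ range (k + 1) := by
            intro j hj
            rw [mem_insert, mem_singleton] at hj
            rw [mem_range]
            omega
          refine le_trans ?_ (sum_le_sum_of_subset h2)
          rw [sum_pair (by omega)]
          have e1 : k ^ (k - 1) * 1 ^ (k - (k - 1)) * k.choose (k - 1) = k ^ k := by
            rw [one_pow, mul_one, Nat.choose_symm_of_eq_add (show k = (k - 1) + 1 by omega),
              Nat.choose_one_right, ← pow_succ]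
            congr 1
            omega
          have e2 : k ^ k * 1 ^ (k - k) * k.choose k = k ^ k := by
            rw [one_pow, mul_one, Nat.choose_self, mul_one]
          have e3 : (k ^ (k - 1) * 1 ^ (k - (k - 1)) * ((k.choose (k - 1) : ℕ) : ℕ) +
            k ^ k * 1 ^ (k - k) * ((k.choose k : ℕ) : ℕ)) = (1 + 1) * k ^ k := by
            rw [e1, e2]
            ring
          exact e3.ge
        simpa using hb
      calc 2 ^ (k + 1 - 1) * (k + 1).factorial
          = 2 * (k + 1) * (2 ^ (k - 1) * k.factorial) := by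
            rw [Nat.factorial_succ, Nat.add_sub_cancel]
            have : 2 ^ k = 2 * 2 ^ (k - 1) := by
              rw [← pow_succ']
              congr 1
              omega
            rw [this]
            ring
        _ ≤ 2 * (k + 1) * k ^ k := Nat.mul_le_mul_left _ ih
        _ = (k + 1) * (2 * k ^ k) := by ring
        _ ≤ (k + 1) * (k + 1) ^ k := Nat.mul_le_mul_left _ h1
        _ = (k + 1) ^ (k + 1) := by ring
  have hf : (0 : ℝ) < r.factorial := by exact_mod_cast r.factorial_pos
  rw [le_div_iff₀ hf]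
  exact_mod_cast h

theorem hFIN (hTR : StTR) (hDE : StDE) (hBN : StBN) (hM : StM) (hSH : StSH) : StFIN := by
  intro r hr
  refine ⟨?_, fun ε M hε => hSH r ε M hr hε, two_pow_le r hr⟩
  intro ε hε
  obtain ⟨κ, n₁, hκ, h1⟩ := hM r hr
  obtain ⟨n₂, h2⟩ := hBN r κ ε hr hκ hε
  refine ⟨max n₁ n₂, ?_⟩
  intro n hn V hV hdw
  obtain ⟨c, s, hF, hP, hc, hOm, hmem⟩ := hTR n V hV
  rw [← hOm] at hdw
  constructor
  · intro y
    obtain ⟨u, hu, hsum⟩ := hDE c n r s hF hdw (∑ i, y i • s i)
    refine ⟨y - u, ?_, ?_⟩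
    · rw [hmem]
      simp only [Pi.sub_apply, sub_smul]
      rw [sum_sub_distrib, hsum, sub_self]
    · rw [sub_sub_cancel]
      exact hu
  · have h3 := h1 n ((le_max_left _ _).trans hn) c s hF hP hdw
    have h4 := h2 n ((le_max_right _ _).trans hn)
    have hc' : (Nat.card V : ℝ) * 2 ^ c = 2 ^ n := by exact_mod_cast hc
    have h2c : (0 : ℝ) < 2 ^ c := by positivity
    have h2n : (0 : ℝ) < 2 ^ n := by positivity
    unfold dens
    set B : ℝ := (((univ.filter (fun x : Fin n → ZMod 2 => hammingNorm x ≤ r)).card : ℕ) : ℝ) with hB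
    have hB0 : 0 ≤ B := Nat.cast_nonneg _
    rw [le_div_iff₀ h2n, ← hc']
    have h5 : (1 - ε) * ((r : ℝ) ^ r / r.factorial) * 2 ^ c ≤ B := by
      rcases le_or_gt ε 1 with h | h
      · refine le_trans ?_ h4
        have : 0 ≤ (1 - ε) * ((r : ℝ) ^ r / r.factorial) := by
          have : 0 ≤ 1 - ε := by linarith
          positivity
        exact mul_le_mul_of_nonneg_left h3 this
      · refine le_trans ?_ hB0
        have h6 : (1 - ε) * ((r : ℝ) ^ r / r.factorial) ≤ 0 :=
          mul_nonpos_of_nonpos_of_nonneg (by linarith) (by positivity)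
        exact mul_nonpos_of_nonpos_of_nonneg h6 h2c.le
    have hV0 : (0 : ℝ) ≤ Nat.card V := Nat.cast_nonneg _
    calc (1 - ε) * ((r : ℝ) ^ r / r.factorial) * ((Nat.card V : ℝ) * 2 ^ c)
        = (Nat.card V : ℝ) * ((1 - ε) * ((r : ℝ) ^ r / r.factorial) * 2 ^ c) := by ring
      _ ≤ (Nat.card V : ℝ) * B := mul_le_mul_of_nonneg_left h5 hV0

end Pool.Agent.Helper30.UP
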