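import Pool.Agent.Helper30.UP.Bas

/-!
# Project UP (MP_e73f90_co): statements of the modules, with complete proofs

THEOREM. Let `V ≤ F_2 ^ n` be linear with minimum distance at least `3` and let the dual code have at most `r` different
nonzero weights (then `V` is a covering code of radius `r`, Delsarte). Then the density of `V` is at least
`(1 - o(1)) r ^ r / r!`, and this is sharp. Equivalently: a projective code of length `n` (columns `s : Fin n → E c`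
different and nonzero) with at most `r` nonzero weights has `2 ^ c ≤ ((n + κ) / r) ^ r` words.

Overview. Part A: `2 ^ c` divides the product of the numbers `2 ω`, `ω` a nonzero weight, so if `2 ^ c ≥ (n / r) ^ r` then all weights are
multiples of some `D ≥ n / (2 r) ^ r`. Part B: for such divisible codes every pure subspace `W` of words (no large class of
equal columns on `W`) has one typical weight, about `(n - zc W) / 2`, and by dependent random choice and the theorem of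
Freiman-Ruzsa over `F_2` a subspace of index `O(n)` on which `η n` more columns vanish. This gives a chain with `r`
different typical weights, so these are all weights and no weight is larger than `n / 2 + O(1)`. Part C: with this
positivity the set `Ds` of the non-typical words is almost a union of at most `K` subspaces, and the set of columns is a
union of at most `K` subspaces up to `O(1)` elements. Part D: a chain of flats and the inequality of the means.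

Conventions in the proofs: `N = 2 ^ c`, `P(·)` = proportion, `|·|` = number of elements. All facts of `Bas.lean` (characters, annihilators,
Poisson, Parseval) are proved there. All modules: `import Pool.Agent.Helper30.UP.St`, `open Finset`, `open scoped Classical`.
-/

set_option autoImplicit false

noncomputable section

namespace Pool.Agent.Helper30.UP

open Finset Filter Topology
open scoped Classical Pointwise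

/-! ## A. divisibility -/

/-- (A1, no hypotheses.) PROOF. `∑_x ∏_{ω ∈ Om} (Fh s x - (n - 2 ω)) = ∏_ω 2 ω`: for `x ≠ 0` the factor `ω = wt s x` vanishes
(`Fh_eq`), for `x = 0` `Fh s 0 = n`. The product is an integer polynomial in `Fh s x` (as an integer `n - 2 wt s x`), and
`∑_x (Fh s x) ^ k = 2 ^ c · #{(i_1, ..., i_k) : ∑ s i_j = 0}` is divisible by `2 ^ c` (`sum_chi`). -/
def StA1 : Prop := ∀ (c n : ℕ) (s : Fin n → E c), Faithful s → 2 ^ c ∣ ∏ ω ∈ Om s, (2 * ω)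

/-- (A2, assume `hA1 : StA1`.) PROOF. `Om s` is not empty (for `n > r` there is `x ≠ 0`), let `m ≤ r` be its size and `v(ω)` the
exponent of `2` in `ω`. By A1 `2 ^ c ≤ ∏_ω 2 · 2 ^ v(ω)`, and `2 ^ v(ω') ≤ ω' ≤ n`, so for every `ω`:
`2 ^ v(ω) ≥ 2 ^ c / (2 ^ m n ^ (m - 1)) ≥ (n / r) ^ r / (2 ^ r n ^ (r - 1)) = n / (2 r) ^ r`. Let `D` be the smallest `2 ^ v(ω)`. -/
def StA2 : Prop := ∀ r : ℕ, 1 ≤ r → ∃ n₀ : ℕ, ∀ n : ℕ, n₀ ≤ n → ∀ (c : ℕ) (s : Fin n → E c),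
  Faithful s → (Om s).card ≤ r → ((n : ℝ) / r) ^ r ≤ (2 : ℝ) ^ c →
    ∃ D : ℕ, 1 ≤ D ∧ n ≤ (2 * r) ^ r * D ∧ ∀ x, D ∣ wt s x

/-! ## B. typical weights and the chain -/

/-- (TY, no hypotheses.) The typical weight. PROOF. Let `F x = ∑_{s i ≠ 0} chi x (s i) = nz - 2 wt s x`. `E_x F = 0`,
`E_x F ^ 2 = n2` (`sum_chi`, `parseval_fam`). Let `τ = nz - 2 ω` be the number with `nz - τ ∈ 2 D ℤ`, `- D < τ ≤ D` (`ω` is a multiple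
of `D`; `ω ≥ 0` by the choice, see below), `S` the set of the `x` with `F x ≠ τ`. On `S`: `|F x - τ| ≥ 2 D`, so `|F x| ≥ D`; hence
`|S| D ^ 2 ≤ n2 N`. Here `n2 ≤ (max mult) nz ≤ n ^ 2 / (8 K ^ 4)`, so `P(S) ≤ n2 / D ^ 2 ≤ 1 / (8 K ^ 2) ≤ 1 / 8`. From `E F = 0`:
`|τ| (1 - P(S)) = |E F 1_S| ≤ n P(S)`, so `|τ| ≤ 2 n P(S)`. `n2 - τ ^ 2 ≤ E F ^ 2 1_S ≤ n ^ 2 P(S)` and
`τ ^ 2 ≤ 4 n ^ 2 P(S) ^ 2 ≤ 4 n ^ 2 P(S) / (8 K ^ 2)`; more precisely `τ ^ 2 ≤ 4 n ^ 2 P(S) (n2 / D ^ 2) ≤ 4 K ^ 2 P(S) n2 ≤ n2 / 2`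
(`P(S) ≤ 1 / (8 K ^ 2)`), so `n2 / 2 ≤ n ^ 2 P(S)`. As `P(S) < 1` the value `τ` is attained (so `ω` is a weight). If `ω = 0` the words of
weight `0` are a subspace with more than half of the elements, so everything, contradiction to the last hypothesis. -/
def StTY : Prop := ∀ (K : ℕ) (c n D : ℕ) (s : Fin n → E c), 1 ≤ K → 1 ≤ D → n ≤ K * D →
  (∀ x, D ∣ wt s x) →
  (∀ v : E c, v ≠ 0 → 8 * (K : ℝ) ^ 4 * ((univ.filter (fun i => s i = v)).card : ℕ) ≤ n) →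
  (∃ x, wt s x ≠ 0) →
  ∃ ω : ℕ, ω ≠ 0 ∧ (∃ x, wt s x = ω) ∧
    |(nz s : ℝ) - 2 * ω| * 2 ^ c ≤ 2 * n * ((univ.filter (fun x => wt s x ≠ ω)).card : ℕ) ∧
    ((univ.filter (fun x => wt s x ≠ ω)).card : ℝ) * D ^ 2 ≤ n2 s * 2 ^ c ∧
    (n2 s : ℝ) * 2 ^ c ≤ 2 * n ^ 2 * ((univ.filter (fun x => wt s x ≠ ω)).card : ℕ) ∧
    8 * (univ.filter (fun x => wt s x ≠ ω)).card ≤ 2 ^ c ∧
    ∀ x, wt s x ≠ ω → (D : ℝ) ≤ |(nz s : ℝ) - 2 * wt s x|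

/-- (DRC, no hypotheses.) Dependent random choice. PROOF. Choose `ℓ` with `8 ((1 + θ / 2) / (1 + θ)) ^ ℓ ≤ 1 / 2`. For
`X ∈ S ^ ℓ` and `σ ∈ {0, 1} ^ ℓ` (functions `Fin ℓ → E c`, `Fin ℓ → ZMod 2`) let `A = {i ∈ I : X j · s i = σ j for all j}`. For
`i, i'` the number of `(X, σ)` with `i, i' ∈ A` is `q(s i + s i') ^ ℓ`, `q(d) = #{x ∈ S : x · d = 0} = (|S| + ∑_{x ∈ S} chi x d) / 2`. The
mean value of `q(s i + s i')` over `I × I` is at least `|S| (1 + θ) / 2` by the hypothesis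
(`(∑_i chi x (s i)) ^ 2 = ∑_{i, i'} chi x (s i + s i')`), so by the power mean inequality `∑ q ^ ℓ ≥ |I| ^ 2 (|S| (1 + θ) / 2) ^ ℓ`; for
the bad pairs (`∑_{x ∈ S} chi x d < (θ / 2) |S|`) `q ≤ |S| (1 + θ / 2) / 2`. So `∑_{(X, σ)} (#pairs - 8 #bad pairs) ≥
(1 / 2) |I| ^ 2 (|S| (1 + θ) / 2) ^ ℓ ≥ (1 / 2) |I| ^ 2 |S| ^ ℓ 2 ^ (- ℓ)`; there are `|S| ^ ℓ 2 ^ ℓ` choices, so some `A` has
`|A| ^ 2 - 8 #bad ≥ (1 / 2) 4 ^ (- ℓ) |I| ^ 2 ≥ 4 ^ (- (ℓ + 1)) |I| ^ 2`. -/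
def StDRC : Prop := ∀ θ : ℝ, 0 < θ → θ ≤ 1 → ∃ ℓ : ℕ, ∀ (c n : ℕ) (s : Fin n → E c) (I : Finset (Fin n))
  (S : Finset (E c)), I.Nonempty → S.Nonempty →
  θ * (I.card : ℝ) ^ 2 * S.card ≤ ∑ x ∈ S, (∑ i ∈ I, chi x (s i)) ^ 2 →
  ∃ A : Finset (Fin n), A ⊆ I ∧ I.card ≤ 2 ^ (ℓ + 1) * A.card ∧
    8 * ((A ×ˢ A).filter (fun p => ∑ x ∈ S, chi x (s p.1 + s p.2) < θ / 2 * S.card)).card ≤ A.card ^ 2

/-- (SD, no hypotheses.) Small doubling. PROOF. Let `T = {d : ∑_{x ∈ S} chi x d ≥ (θ / 2) |S|}`. `∑_d (∑_{x ∈ S} chi x d) ^ 2 = 2 ^ c |S|`, so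
`|T| ≤ 4 · 2 ^ c / (θ ^ 2 |S|)`. `m := #{(i, j) ∈ I × I : s i = s j}`. Let `A'` be the set of the `i ∈ A` with at most `|A| / 4` bad
partners `i' ∈ A` (`s i + s i' ∉ T`); there are at most `|A| ^ 2 / 8` bad pairs, so `|A'| ≥ |A| / 2`. Let `B` be the set of the values `s i`,
`i ∈ A'`. For a set `A₁ ⊆ I` the number of different values is at least `|A₁| ^ 2 / m` (Cauchy-Schwarz). For `i₁, i₂ ∈ A'` at
least `|A| / 2` indices `i' ∈ A` are good partners of both, they have at least `|A| ^ 2 / (4 m)` different values `v`, and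
`s i₁ + s i₂ = (s i₁ + v) + (s i₂ + v)` with both summands in `T`: `|B + B| |A| ^ 2 / (4 m) ≤ |T| ^ 2`. With `2 ^ c m ≤ κ |S| |I| ^ 2`:
`|T| ≤ 4 κ |I| ^ 2 / (θ ^ 2 m)`, `|B + B| ≤ 64 κ ^ 2 |I| ^ 4 / (θ ^ 4 m |A| ^ 2) ≤ 64 κ ^ 4 θ ^ (-4) |I| ^ 2 / m` (`|I| ≤ κ |A|`), and
`|B| ≥ |A'| ^ 2 / m ≥ |I| ^ 2 / (4 κ ^ 2 m)`. So `K₂ = 256 κ ^ 6 θ ^ (-4)`. -/
def StSD : Prop := ∀ θ κ : ℝ, 0 < θ → θ ≤ 1 → 1 ≤ κ → ∃ K₂ : ℝ, 1 ≤ K₂ ∧ ∀ (c n : ℕ) (s : Fin n → E c)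
  (I A : Finset (Fin n)) (S : Finset (E c)), I.Nonempty → S.Nonempty → A ⊆ I →
  (2 : ℝ) ^ c * ((I ×ˢ I).filter (fun p => s p.1 = s p.2)).card ≤ κ * S.card * (I.card : ℝ) ^ 2 →
  (I.card : ℝ) ≤ κ * A.card →
  8 * ((A ×ˢ A).filter (fun p => ∑ x ∈ S, chi x (s p.1 + s p.2) < θ / 2 * S.card)).card ≤ A.card ^ 2 →
  ∃ A' : Finset (Fin n), A' ⊆ A ∧ A.card ≤ 2 * A'.card ∧
    ((A'.image s + A'.image s).card : ℝ) ≤ K₂ * (A'.image s).card ∧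
    ((A'.image s).card : ℝ) * ((I ×ˢ I).filter (fun p => s p.1 = s p.2)).card ≤ K₂ * (I.card : ℝ) ^ 2

/-- (FR, no hypotheses.) Freiman-Ruzsa over `F_2`. PROOF. Plünnecke-Ruzsa (Mathlib, `PluenneckeRuzsa`): `|4 B| ≤ K ^ 4 |B|`. Ruzsa's covering lemma
(Mathlib, `RuzsaCovering`) for `3 B` and `B`: there is `X`, `|X| ≤ K ^ 4`, with `3 B ⊆ X + (B - B) = X + (B + B)`. By induction every sum of
`m ≥ 2` elements of `B` lies in `span X + (B + B)`, and `b = b + b' + b'`; so `span B ⊆ span X + (B + B)` and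
`|span B| ≤ 2 ^ (K ^ 4) K |B|`. -/
def StFR : Prop := ∀ K : ℝ, 1 ≤ K → ∃ F : ℝ, ∀ (c : ℕ) (B : Finset (E c)), B.Nonempty →
  ((B + B).card : ℝ) ≤ K * B.card →
    (Nat.card ↥(Submodule.span (ZMod 2) (B : Set (E c))) : ℝ) ≤ F * B.card

/-- (LL, assume `hTY : StTY`, `hDRC : StDRC`, `hSD : StSD`, `hFR : StFR`.) PROOF. `I` = the nonzero columns (`|I| = nz ≥ D ≥ n / K`, because some
weight is `≥ D` and `wt ≤ nz`), `S` = the words of weight `≠ ω` (TY; not empty because `0 ∈ S`). On `S`: `|∑_{i ∈ I} chi x (s i)| = |nz - 2 wt| ≥ D ≥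
|I| / K`, so DRC applies with `θ = 1 / K ^ 2`. TY: `2 ^ c n2 ≤ 2 n ^ 2 |S| ≤ 2 K ^ 2 |S| |I| ^ 2`, and `n2` is the number of pairs in SD; so SD with
`κ = max (2 K ^ 2) (2 ^ (ℓ + 1))`. Let `H = span B`, `B` the values on `A'`: `|H| ≤ F |B| ≤ F K₂ |I| ^ 2 / n2 ≤ F K₂ n` (`n2 ≥ |I|`), and
`#{i : s i ∈ H, s i ≠ 0} ≥ |A'| ≥ |I| / 2 ^ (ℓ + 2) ≥ n / (K 2 ^ (ℓ + 2))`. -/
def StLL : Prop := ∀ K : ℕ, 1 ≤ K → ∃ K₁ η : ℝ, 1 ≤ K₁ ∧ 0 < η ∧ ∀ (c n D : ℕ) (s : Fin n → E c), 1 ≤ D →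
  n ≤ K * D → (∀ x, D ∣ wt s x) →
  (∀ v : E c, v ≠ 0 → 8 * (K : ℝ) ^ 4 * ((univ.filter (fun i => s i = v)).card : ℕ) ≤ n) →
  (∃ x, wt s x ≠ 0) →
  ∃ H : Submodule (ZMod 2) (E c), (Nat.card H : ℝ) ≤ K₁ * n ∧
    η * n ≤ ((univ.filter (fun i => s i ∈ H ∧ s i ≠ 0)).card : ℕ)

/-- (RES, no hypotheses.) Restriction to a subspace. PROOF. `c'` the dimension of `W`, `φ` a basis (`φ x' = ∑ x' j • b j`), `s' i` the vector of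
the numbers `b j · s i`. -/
def StRES : Prop := ∀ (c n : ℕ) (s : Fin n → E c) (W : Submodule (ZMod 2) (E c)),
  ∃ (c' : ℕ) (s' : Fin n → E c') (φ : E c' →ₗ[ZMod 2] E c), Function.Injective φ ∧
    LinearMap.range φ = W ∧ 2 ^ c' = Nat.card W ∧ ∀ x' i, x' ⬝ᵥ s' i = φ x' ⬝ᵥ s i

/-- the property of STEP with given constants -/
def StepP (K : ℕ) (K₁ η : ℝ) : Prop := ∀ (c n D : ℕ) (s : Fin n → E c), 1 ≤ D →
  n ≤ K * D → (∀ x, D ∣ wt s x) → Faithful s → ∀ W : Submodule (ZMod 2) (E c), W ≠ ⊥ →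
  Pu s (1 / (8 * (K : ℝ) ^ 4)) W →
  ∃ W' : Submodule (ZMod 2) (E c), W' ≤ W ∧ (Nat.card W : ℝ) ≤ K₁ * n * Nat.card W' ∧
    (zc s W : ℝ) + η * n ≤ zc s W'

/-- (STEP, assume `hR : StRES`, `hL : StLL`.) PROOF. Take `c'`, `s'`, `φ` for `W`. `wt s' x' = wt s (φ x')`, so the divisibility holds and some weight is not `0`
(`W ≠ ⊥`, faithful). `s' i = 0` iff `s i ∈ perp W`; `s' i = s' j` iff `s i + s j ∈ perp W`; so a class `{i : s' i = v'}`, `v' ≠ 0`, is empty or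
`{i : s i + s j ∈ perp W}` with `s j ∉ perp W`: at most `n / (8 K ^ 4)` elements. Let `H` be the subspace of LL for `s'`, `W' = φ(perp H)`:
`|W| = 2 ^ c' = |H| |perp H| = |H| |W'| ≤ K₁ n |W'|`, and the columns with `s' i ∈ H` vanish on `W'`; these are the `zc s W` columns with
`s' i = 0` and at least `η n` others. -/
def StSTEP : Prop := ∀ K : ℕ, 1 ≤ K → ∃ K₁ η : ℝ, 1 ≤ K₁ ∧ 0 < η ∧ StepP K K₁ η

/-- (PUR, no hypotheses.) PROOF. If `W` is not pure there is `v ∉ perp W` with more than `ε n` indices with `s i + v ∈ perp W`. Let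
`W₁ = {x ∈ W : x · v = 0}`: a subspace of index `2` (`v ∉ perp W`), these columns vanish on `W₁` and not on `W`, so
`zc s W₁ > zc s W + ε n`. As `zc ≤ n` there are at most `1 / ε` steps (induction; if `n = 0` then `W` is pure). -/
def StPUR : Prop := ∀ ε : ℝ, 0 < ε → ∀ (c n : ℕ) (s : Fin n → E c) (W : Submodule (ZMod 2) (E c)),
  ∃ W' : Submodule (ZMod 2) (E c), W' ≤ W ∧ Pu s ε W' ∧ Nat.card W ≤ 2 ^ ⌈1 / ε⌉₊ * Nat.card W'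

/-- (TW, assume `hR : StRES`, `hTY : StTY`.) PROOF. Restrict to `W` as in STEP: `nz s' = n - zc s W`, `n2 s' ≤ ε n · nz s' ≤ ε n ^ 2` (every class of equal
nonzero columns has at most `ε n` elements). TY: `|nz - 2 ω| 2 ^ c' ≤ 2 n |S|` and `|S| D ^ 2 ≤ n2 2 ^ c'`, so
`|nz - 2 ω| ≤ 2 n · ε n ^ 2 / D ^ 2 ≤ 2 ε K ^ 2 n`. The words of weight `ω` of `s'` give `x = φ x'`. -/
def StTW : Prop := ∀ (K : ℕ) (ε : ℝ) (c n D : ℕ) (s : Fin n → E c), 1 ≤ K → 0 < ε →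
  ε ≤ 1 / (8 * (K : ℝ) ^ 4) → 1 ≤ D → n ≤ K * D → (∀ x, D ∣ wt s x) → Faithful s →
  ∀ W : Submodule (ZMod 2) (E c), W ≠ ⊥ → Pu s ε W →
  ∃ x ∈ W, wt s x ≠ 0 ∧ |(n : ℝ) - zc s W - 2 * wt s x| ≤ 2 * ε * (K : ℝ) ^ 2 * n

/-- (CH, assume `hP : StPUR`, `hT : StTW`.) PROOF. `A 0 = 1`, `A (m + 1) = A m K₁ 2 ^ ⌈1 / ε⌉`. Induction over `m` (for all `W`).
`|W| > A m n ^ m ≥ 1` gives `W ≠ ⊥`. `m = 0`: TW. `m + 1`: `StepP` gives `W'` (a `Pu s ε` subspace is `Pu s (1 / (8 K ^ 4))`), PUR gives a pure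
`W'' ≤ W'`, `|W| ≤ K₁ n 2 ^ ⌈1 / ε⌉ |W''|`, so `|W''| > A m n ^ m`, and `zc s W'' ≥ zc s W' ≥ zc s W + η n` (`perp_anti`). Induction
hypothesis: a set `X` of `m + 1` weights `w` with `2 w ≤ n - zc s W'' + 2 ε K ^ 2 n ≤ n - zc s W - η n + η n / 4`. TW for `W` gives a weight `w₀` with
`n - zc s W - η n / 4 ≤ 2 w₀ ≤ n - zc s W + 2 ε K ^ 2 n`, larger than all `w ∈ X` (`n ≥ 1`); take `X ∪ {w₀}`. -/
def StCH : Prop := ∀ (K : ℕ) (K₁ η ε : ℝ), 1 ≤ K → 1 ≤ K₁ → 0 < η → StepP K K₁ η → 0 < ε →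
  ε ≤ 1 / (8 * (K : ℝ) ^ 4) → 8 * ε * (K : ℝ) ^ 2 ≤ η → ∃ A : ℕ → ℝ, (∀ m, 1 ≤ A m) ∧
  ∀ (c n D : ℕ) (s : Fin n → E c), 1 ≤ n → 1 ≤ D → n ≤ K * D → (∀ x, D ∣ wt s x) →
  Faithful s → ∀ (m : ℕ) (W : Submodule (ZMod 2) (E c)), Pu s ε W → A m * (n : ℝ) ^ m < Nat.card W →
  ∃ X : Finset ℕ, X.card = m + 1 ∧ (∀ w ∈ X, w ≠ 0 ∧ ∃ x ∈ W, wt s x = w) ∧
    ∀ w ∈ X, 2 * (w : ℝ) ≤ n - zc s W + 2 * ε * (K : ℝ) ^ 2 * n

/-- (POS, assume `hTY : StTY`, `hS : StSTEP`, `hP : StPUR`, `hC : StCH`.) No weight is larger than `n / 2 + K ^ 2`. PROOF. `K₁`, `η` from STEP,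
`ε = min (1 / (8 K ^ 4)) (η / (8 K ^ 2))`, `A` from CH, `n` large (`n ≥ 1 / ε`, `n ≥ 8 K ^ 4`, and below). Every class of equal
columns has at most one element, so TY applies to `s` itself with `nz = n2 = n`:
`|n - 2 ω₀| ≤ 2 n |S| / 2 ^ c ≤ 2 n · n / D ^ 2 ≤ 2 K ^ 2`, and `ω₀ ≠ 0` is a weight. `⊤` is pure for both constants (`perp_top`). If `r = 1` then
`Om s = {ω₀}`. If `r ≥ 2`: `StepP` for `⊤` and PUR give a `Pu s ε` subspace `W''` with `zc s W'' ≥ η n` and `|W''| ≥ 2 ^ c / (K₁ n 2 ^ ⌈1 / ε⌉) ≥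
n ^ (r - 1) / (K K₁ 2 ^ ⌈1 / ε⌉) > A (r - 2) n ^ (r - 2)`. CH (with `m = r - 2`) gives `r - 1` nonzero weights with
`2 w ≤ n - η n + η n / 4 < n - 2 K ^ 2 ≤ 2 ω₀`. Together with `ω₀` these are `r` different elements of `Om s`, so all of `Om s`, and every weight
is at most `ω₀`: `Fh s x = n - 2 wt s x ≥ n - 2 ω₀ ≥ - 2 K ^ 2`. -/
def StPOS : Prop := ∀ K r : ℕ, 1 ≤ K → 1 ≤ r → ∃ n₀ : ℕ, ∀ n : ℕ, n₀ ≤ n →
  ∀ (c D : ℕ) (s : Fin n → E c), 1 ≤ D → n ≤ K * D → (∀ x, D ∣ wt s x) → Faithful s → Proj s →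
  (Om s).card ≤ r → (n : ℝ) ^ r ≤ K * (2 : ℝ) ^ c → ∀ x, -(2 * (K : ℝ) ^ 2) ≤ Fh s x

/-! ## C. the structure -/

/-- (C1, no hypotheses.) PROOF. `f = Fh s`, `τ` its smallest value; `Ds s = {f ≠ τ}`. `∑_x f = 0` (no zero column, `sum_chi`), so `τ ≤ 0`; the values
of `f` are `τ + 2 D j`, `j ≥ 0` (divisibility). `g = f - τ ≥ 0`, `g ≥ 2 D` on `Ds`. (1) `2 D |Ds| ≤ ∑ g = - τ N ≤ T N`, `n ≤ K D`.
(2) `∑ g ^ 2 = N (n + τ ^ 2)` (Parseval) and `g ≤ n + T ≤ 2 n`, so `N n ≤ 4 n ^ 2 |Ds|`. (3), (4):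
`∑_y f(y) f(z + y) = ∑_{i, j} chi z (s j) ∑_y chi y (s i + s j) = N f(z)` (injective), so `∑_y g(y) g(z + y) = N (f(z) + τ ^ 2)`. If
`z ∉ Ds`: `4 D ^ 2 rr(z) ≤ N (τ + τ ^ 2) ≤ N T ^ 2` and (2). If `z ∈ Ds`: `4 n ^ 2 rr(z) ≥ N (2 D + τ + τ ^ 2) ≥ 2 D N` (`τ` is an integer `≤ 0`), so
`rr(z) ≥ N / (2 K n) ≥ |Ds| / (T K ^ 2)` by (1). (5) `τ + 2 D ≥ D` as `T ≤ D`. -/
def StC1 : Prop := ∀ (K : ℕ) (T : ℝ) (c n D : ℕ) (s : Fin n → E c), 1 ≤ K → 1 ≤ T → Hyp K T D s →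
  0 ∈ Ds s ∧ 2 * n * ((Ds s).card : ℝ) ≤ T * K * 2 ^ c ∧ (2 : ℝ) ^ c ≤ 4 * n * (Ds s).card ∧
  (∀ z, z ∉ Ds s → n * (rr s z : ℝ) ≤ T ^ 2 * (K : ℝ) ^ 2 * (Ds s).card) ∧
  (∀ z ∈ Ds s, ((Ds s).card : ℝ) ≤ T * (K : ℝ) ^ 2 * rr s z) ∧
  ∃ τ : ℝ, -T ≤ τ ∧ τ ≤ 0 ∧ (∀ x, x ∉ Ds s → Fh s x = τ) ∧
    ∀ x ∈ Ds s, τ + 2 * D ≤ Fh s x ∧ (D : ℝ) ≤ Fh s x

/-- (C2, assume `h : StC1`.) PROOF. For `y, z ∈ Ds` with `y + z ∉ Ds` the number of `x ∈ Ds` with `x + y, x + z ∈ Ds` is at most `rr s (y + z)`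
(put `a = x + y`, then `(y + z) + a = x + z`), at most `T ^ 2 K ^ 2 |Ds| / n`. So `∑_{x ∈ Ds} B(x) ≤ T ^ 2 K ^ 2 |Ds| ^ 3 / n`, `B(x)` the number below.
`G` = the `x ∈ Ds` with `B(x) ≤ ε |Ds| ^ 2` (Markov). -/
def StC2 : Prop := ∀ (K : ℕ) (T ε : ℝ) (c n D : ℕ) (s : Fin n → E c), 1 ≤ K → 1 ≤ T → 0 < ε →
  Hyp K T D s → ∃ G : Finset (E c), G ⊆ Ds s ∧
    n * ε * ((Ds s \ G).card : ℝ) ≤ T ^ 2 * (K : ℝ) ^ 2 * (Ds s).card ∧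
    ∀ x ∈ G, (((Ds s ×ˢ Ds s).filter (fun p => x + p.1 ∈ Ds s ∧ x + p.2 ∈ Ds s ∧
      p.1 + p.2 ∉ Ds s)).card : ℝ) ≤ ε * ((Ds s).card : ℝ) ^ 2

/-- (C3, no hypotheses.) PROOF. `ρ(d) = #{y ∈ A : d + y ∈ A}`. `∑_{d ∈ A} (|A| - ρ(d)) ≤ |A| ^ 2 / 256` (pairs `(d, y)`), so for
all but `|A| / 16` of the `d ∈ A` (call the others `A₁`) `ρ(d) ≥ (15 / 16) |A|`. `W = {d : ρ(d) > |A| / 2}`. If `d ∈ W` there are
`a, b ∈ A₁` with `a + b = d` (more than `|A| / 2` pairs in `A ^ 2`, at most `|A| / 8` of them not in `A₁ ^ 2`), so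
`ρ(d) ≥ (14 / 16) |A|`. Hence `W` is closed under addition (`ρ(d + d') ≥ (12 / 16) |A|`), contains `0` and `A₁`, and
`|W| (14 / 16) |A| ≤ ∑_d ρ(d) = |A| ^ 2`. If `d + A = A` then `ρ(d) = |A|`. -/
def StC3 : Prop := ∀ (c : ℕ) (A : Finset (E c)), A.Nonempty →
  256 * ((A ×ˢ A).filter (fun p => p.1 + p.2 ∉ A)).card ≤ A.card ^ 2 →
  ∃ W : Submodule (ZMod 2) (E c), 15 * A.card ≤ 16 * (A.filter (fun y => y ∈ W)).card ∧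
    7 * Nat.card W ≤ 8 * A.card ∧ ∀ d, (∀ y ∈ A, d + y ∈ A) → d ∈ W

/-- (C4, assume `h1 : StC1`, `h2 : StC2`, `h3 : StC3`.) PROOF. `δ₁ = 1 / (T K ^ 2)`, C2 with `ε = δ₁ ^ 2 / 512`. For `x ∈ G` let
`A = {y ∈ Ds : x + y ∈ Ds}`, `|A| = rr s x ≥ δ₁ |Ds|`, `x + A = A`. A pair `(y, z) ∈ A ^ 2` with `y + z ∉ A` has `y + z ∉ Ds` or
`(x + y) + z ∉ Ds` (and `(x + y, z) ∈ A ^ 2`): at most `2 ε |Ds| ^ 2 ≤ |A| ^ 2 / 256` pairs. C3 gives `W ∋ x`,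
`|W ∩ A| ≥ (15 / 16) |A| ≥ (3 / 4) |W|`. `W ⊆ Ds`: for `x' ∈ W` at least `|W| / 2` elements `y ∈ W` have `y ∈ Ds` and `x' + y ∈ Ds`, so
`rr s x' ≥ |W| / 2 ≥ (15 / 32) δ₁ |Ds| > T ^ 2 K ^ 2 |Ds| / n` for large `n`, hence `x' ∈ Ds` by C1. `δ = δ₁ / 2`,
`κ = T ^ 2 K ^ 2 / ε`. -/
def StC4 : Prop := ∀ (K : ℕ) (T : ℝ), 1 ≤ K → 1 ≤ T → ∃ (δ κ : ℝ) (n₀ : ℕ), 0 < δ ∧ 0 < κ ∧ ∀ n : ℕ, n₀ ≤ n →
  ∀ (c D : ℕ) (s : Fin n → E c), Hyp K T D s → ∃ G : Finset (E c), G ⊆ Ds s ∧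
    n * ((Ds s \ G).card : ℝ) ≤ κ * (Ds s).card ∧
    ∀ x ∈ G, ∃ W : Submodule (ZMod 2) (E c), x ∈ W ∧ (∀ y ∈ W, y ∈ Ds s) ∧
      δ * (Ds s).card ≤ Nat.card W

/-- (C5, assume `h1 : StC1`, `h4 : StC4`.) PROOF. `F` = the maximal elements of the set of subspaces `W ⊆ Ds` with `|W| ≥ δ |Ds|`. Every such
subspace is contained in a maximal one, so the elements of `G` are covered. Let `W ∈ F`, `x ∉ W`. If `x + W ⊆ Ds` then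
`W ∪ (x + W) = W ⊔ span {x}` would be a larger one. So there is `y₀ ∈ W` with `z = x + y₀ ∉ Ds`; for `y ∈ W` with `x + y ∈ Ds` the element
`y₀ + y ∈ W ⊆ Ds` has `z + (y₀ + y) = x + y ∈ Ds`: the number of such `y` is at most `rr s z ≤ T ^ 2 K ^ 2 |Ds| / n`. For `W ≠ W'` in `F` take
`x ∈ W'`, `x ∉ W`: for `y ∈ W ⊓ W'`, `x + y ∈ W' ⊆ Ds`. -/
def StC5 : Prop := ∀ (K : ℕ) (T : ℝ), 1 ≤ K → 1 ≤ T → ∃ (δ κ : ℝ) (n₀ : ℕ), 0 < δ ∧ 0 < κ ∧ ∀ n : ℕ, n₀ ≤ n →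
  ∀ (c D : ℕ) (s : Fin n → E c), Hyp K T D s → ∃ F : Finset (Submodule (ZMod 2) (E c)), Fam δ κ s F

/-- (C6, assume `h1 : StC1`.) PROOF. `H = perp W`, `z = zc s W`, `N = |W| |H|`. For `x ∉ W` let `Φ(x) = ∑_{s i ∈ H} chi x (s i)`: it is the mean
value of `Fh s (x + y)` over `y ∈ W` (`sum_coset_Fh`), so `τ ≤ Φ(x) ≤ τ + 2 n κ |Ds| / (n |W|) ≤ 2 κ / δ` (`Fh - τ ≤ n + T ≤ 2 n` on `Ds`, `0` outside). So
`|Φ(x)| ≤ κ₁ := max T (2 κ / δ)` (d). For `x ∈ W`, `Φ(x) = z`. Parseval (`parseval_inj`): `N z = ∑_x Φ ^ 2 ≤ |W| z ^ 2 + N κ₁ ^ 2`, so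
`z (|H| - z) ≤ κ₁ ^ 2 |H|`. `z` is the mean value of `Fh` over `W ⊆ Ds`, so `z ≥ D` (b). `|H| = N / |W| ≤ N / (δ |Ds|) ≤ 4 n / δ` (c). (a)
`|H| - z ≤ κ₁ ^ 2 (4 n / δ) / D ≤ 4 K κ₁ ^ 2 / δ`. -/
def StC6 : Prop := ∀ (K : ℕ) (T δ κ : ℝ), 1 ≤ K → 1 ≤ T → 0 < δ → 0 < κ → ∃ κ' : ℝ, 0 < κ' ∧
  ∀ (c n D : ℕ) (s : Fin n → E c) (W : Submodule (ZMod 2) (E c)), Hyp K T D s → Blk δ κ s W →
  (Nat.card (perp W) : ℝ) ≤ zc s W + κ' ∧ D ≤ zc s W ∧ (Nat.card (perp W) : ℝ) ≤ κ' * n ∧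
  ∀ x, x ∉ W → |∑ i ∈ univ.filter (fun i => s i ∈ perp W), chi x (s i)| ≤ κ'

/-- (C7, assume `h1 : StC1`, `h6 : StC6`.) PROOF. `v ∉ H = perp W`, `b` the number of `i` with `s i + v ∈ H`. `W' = {x ∈ W : x · v = 0}` has index `2` in
`W`. From `sum_el_Fh` and `sum_el_Fh'` the sum of `Fh` over `W \ W'` is `(|W| / 2) (z - b)`, and `Fh ≥ τ + 2 D` on `W ⊆ Ds`: `z - b ≥ τ + 2 D ≥ D`
(`T ≤ D`), so `b ≤ |H| - D`. For `x ∉ W`: the mean value of `Fh` over `x + W'` is `Φ(x) + Ψ(x)`, `Ψ(x) = ∑_{s i + v ∈ H} chi x (s i)`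
(`perp W' = H ∪ (v + H)`), and it is `≥ τ ≥ - T`, so `Ψ(x) ≥ - T - κ'`. For `y' ∈ W \ W'` the element `x + y'` is also not in `W` and
`Ψ(x + y') = - Ψ(x)`. So `|Ψ(x)| ≤ κ₁ := T + κ'` for `x ∉ W`; for `x ∈ W`, `|Ψ(x)| = b`. Parseval: `N b ≤ |W| b ^ 2 + N κ₁ ^ 2`, so
`b (|H| - b) ≤ κ₁ ^ 2 |H|`, `b ≤ κ₁ ^ 2 |H| / D ≤ κ₁ ^ 2 κ' K`. -/
def StC7 : Prop := ∀ (K : ℕ) (T δ κ : ℝ), 1 ≤ K → 1 ≤ T → 0 < δ → 0 < κ → ∃ κ' : ℝ, 0 < κ' ∧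
  ∀ (c n D : ℕ) (s : Fin n → E c) (W : Submodule (ZMod 2) (E c)), Hyp K T D s → Blk δ κ s W →
  ∀ v : E c, v ∉ perp W → (((univ.filter (fun i => s i + v ∈ perp W)).card : ℕ) : ℝ) ≤ κ'

/-- (C8, assume `h1 : StC1`, `h6 : StC6`.) PROOF. `perp W ⊓ perp W' = perp (W ⊔ W')` has `2 ^ c |W ⊓ W'| / (|W| |W'|) ≤ 2 ^ c κ / (n δ ^ 2 |Ds|) ≤ 4 κ / δ ^ 2` elements
(C1 (2)). If `F` had `K + 1` elements `W_j`: the column sets `{i : s i ∈ perp W_j}` have at least `D` elements each and pairwise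
intersections of at most `4 κ / δ ^ 2` (`s` injective), so `(K + 1) D ≤ n + (K + 1) ^ 2 4 κ / δ ^ 2 ≤ K D + ...`, impossible for large `n`
(`D ≥ n / K`). -/
def StC8 : Prop := ∀ (K : ℕ) (T δ κ : ℝ), 1 ≤ K → 1 ≤ T → 0 < δ → 0 < κ → ∃ (κ' : ℝ) (n₀ : ℕ), 0 < κ' ∧
  ∀ n : ℕ, n₀ ≤ n → ∀ (c D : ℕ) (s : Fin n → E c) (F : Finset (Submodule (ZMod 2) (E c))), Hyp K T D s →
  Fam δ κ s F → F.card ≤ K ∧
  ∀ W ∈ F, ∀ W' ∈ F, W ≠ W' → (Nat.card ↥(perp W ⊓ perp W') : ℝ) ≤ κ'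

/-- (C9, assume `h1 : StC1`, `h6 : StC6`, `h7 : StC7`, `h8 : StC8`.) PROOF. Let `s i = v` be in no `perp W`, `W ∈ F`. `∑_x Fh s x chi x v = N` (injective) and
`∑_x chi x v = 0`, so with `g = Fh - τ`: `∑_{x ∈ Ds} g(x) chi x v = N`, `|g| ≤ 2 n`. Replace `Ds` by the sum over the `W ∈ F`: the error is at most `2 n`
times (the number of `x ∈ Ds` in no `W`, plus the sum of `|W ⊓ W'|` over pairs), at most `2 (κ + K ^ 2 κ) |Ds| ≤ κ₁ N / n`. And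
`∑_{x ∈ W} g(x) chi x v = |W| #{j : s j + v ∈ perp W} ≤ |W| κ'` (`sum_el_Fh`, `sum_el_chi`, C7), `|W| = N / |perp W| ≤ N / D ≤ N K / n` (C6 (b)). So
`N ≤ K · N K κ' / n + κ₁ N / n`, impossible for large `n`. -/
def StC9 : Prop := ∀ (K : ℕ) (T δ κ : ℝ), 1 ≤ K → 1 ≤ T → 0 < δ → 0 < κ → ∃ n₀ : ℕ,
  ∀ n : ℕ, n₀ ≤ n → ∀ (c D : ℕ) (s : Fin n → E c) (F : Finset (Submodule (ZMod 2) (E c))), Hyp K T D s →
  Fam δ κ s F → ∀ i, ∃ W ∈ F, s i ∈ perp W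

/-- (C10, assume `h5 : StC5`, `h6 : StC6`, `h8 : StC8`, `h9 : StC9`.) PROOF. Enumerate `F`, `k = |F| ≤ K`, `h_j = |perp (W j)| ≥ zc s (W j) ≥ D`, so `n ≤ K h_j`.
`Fh s x = ∑_i chi x (s i)`; every `i` is in some `A_j = {i : s i ∈ perp (W j)}`, so `|Fh s x - ∑_j ∑_{i ∈ A_j} chi x (s i)| ≤ ∑_{j < j'} |A_j ∩ A_j'| ≤ K ^ 2 κ'`
(inclusion of multiplicities: `(m - 1) ≤ m (m - 1) / 2` for `m ≥ 1`). `A_j` is a subset of `perp (W j)` (injective) with complement of at most `κ'`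
elements (C6 (a)), and `∑_{v ∈ perp (W j)} chi x v = h_j` if `x ∈ perp (perp (W j)) = W j` and `0` otherwise. -/
def StC10 : Prop := ∀ (K : ℕ) (T : ℝ), 1 ≤ K → 1 ≤ T → ∃ (κ : ℝ) (n₀ : ℕ), 0 < κ ∧ ∀ n : ℕ, n₀ ≤ n →
  ∀ (c D : ℕ) (s : Fin n → E c), Hyp K T D s →
  ∃ (k : ℕ) (W : Fin k → Submodule (ZMod 2) (E c)), k ≤ K ∧ (∀ j, n ≤ K * Nat.card (perp (W j))) ∧
    ∀ x, |Fh s x - ∑ j ∈ Jx W x, (Nat.card (perp (W j)) : ℝ)| ≤ κ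

/-! ## D. flags -/

/-- (D0, no hypotheses.) PROOF. Induction over the number of `i` with `¬ Y ≤ W i`. If `Y` itself does not have the third property, there is `i` with
`¬ Y ≤ W i` and `|Y| ≤ 2 K |Y ⊓ W i|`; apply the induction hypothesis to `Y ⊓ W i` (its number is smaller). -/
def StD0 : Prop := ∀ (K c k : ℕ) (W : Fin k → Submodule (ZMod 2) (E c)) (Y : Submodule (ZMod 2) (E c)),
  1 ≤ K → ∃ Z : Submodule (ZMod 2) (E c), Z ≤ Y ∧ (Z = Y ∨ ∃ i, ¬ Y ≤ W i ∧ Z ≤ W i) ∧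
    (∀ i, ¬ Z ≤ W i → 2 * K * Nat.card ↥(Z ⊓ W i) < Nat.card Z) ∧
    Nat.card Y * (2 * K) ^ (univ.filter (fun i => ¬ Z ≤ W i)).card ≤
      (2 * K) ^ (univ.filter (fun i => ¬ Y ≤ W i)).card * Nat.card Z

/-- (D1, assume `h0 : StD0`.) PROOF. Induction over `m` for all `Y`. `m = 0`: no chain of length `1` means `Y = ⊥`, `I = ∅`. Let `m ≥ 1`. `Y = ⊥`: second
alternative. `Y ≠ ⊥`: take `Z` from D0. Case `Z = Y`: there is `i` with `¬ Y ≤ W i` (otherwise `Y = ⊥` by the intersection hypothesis). The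
`2 K |Y ⊓ W l| < |Y|` for the at most `K` indices `l` with `¬ Y ≤ W l`, so some `x ∈ Y` is in none of these `W l`; `x ≠ 0`, `Jx W x = {l : Y ≤ W l}`. Let
`Y' = Y ⊓ W i`. A chain of length `m` in `Y'` with `x` put first would be a chain of length `m + 1` in `Y` (`Jx W x ⊂ Jx W x'` for `x' ∈ Y'`, which contains
`i`), so the induction hypothesis (`m - 1`) applies to `Y'`. `|Y| ≤ |perp (W i)| |Y'|` (`|Y| |W i| = |Y ⊔ W i| |Y ⊓ W i|`, `card_perp`). First alternative `I'`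
for `Y'`: `i ∉ I'` as `Y' ≤ W i`; `I = I' ∪ {i}`. Second alternative: `|Y| H ≤ H |Y'| H ≤ H (2 K) ^ ... H ^ (m - 1)`. Case `Z ≠ Y`: let `i` be the
new index. There is `x ∈ Y` not in `W i` and not in the `W l` with `¬ Z ≤ W l`: `|Y ⊓ W i| ≤ |Y| / 2`, and `|Y ⊓ W l| / |Y| ≤ |Z ⊓ W l| / |Z| < 1 / (2 K)` for
these `l` (at most `K - 1` of them, `l ≠ i`). Then `x ≠ 0`, `Jx W x ⊆ {l : Z ≤ W l} \ {i} ⊂ Jx W x''` for all `x'' ∈ Z`: a chain of length `m` in `Z` gives one of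
length `m + 1` in `Y`. Induction hypothesis (`m - 1`) for `Z`: in the first alternative `|Z| ≤ H ^ (m - 1)`, so
`|Y| H ≤ (2 K) ^ (...) H ^ m`; in the second `|Y| H (2 K) ^ (k(Z)) ≤ (2 K) ^ (k(Y)) |Z| H ≤ (2 K) ^ (k(Y)) (2 K) ^ (k(Z)) H ^ (m - 1)`. -/
def StD1 : Prop := ∀ (K c k : ℕ) (W : Fin k → Submodule (ZMod 2) (E c)) (H : ℝ), 1 ≤ K → k ≤ K → 1 ≤ H →
  (∀ i, (Nat.card (perp (W i)) : ℝ) ≤ H) → (∀ x, (∀ i, x ∈ W i) → x = 0) →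
  ∀ (m : ℕ) (Y : Submodule (ZMod 2) (E c)), ¬ Chn W Y (m + 1) →
  (∃ I : Finset (Fin k), I.card = m ∧ (∀ i ∈ I, ¬ Y ≤ W i) ∧
    (Nat.card Y : ℝ) ≤ ∏ i ∈ I, (Nat.card (perp (W i)) : ℝ)) ∨
  (Nat.card Y : ℝ) * H ≤ (2 * K : ℝ) ^ (univ.filter (fun i => ¬ Y ≤ W i)).card * H ^ m

/-- (D2, assume `h1 : StD1`.) PROOF. `n` large. `κ ≥ 0` (otherwise no such `s`). If all `W j` contain `x` then `Fh s x ≥ ∑_j h_j - κ ≥ n - 2 κ` (`x = 0` gives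
`|n - ∑_j h_j| ≤ κ`), so `wt s x ≤ κ < n / K` and `x = 0`. A chain of length `r + 1` in `⊤` gives `r + 1` different nonzero weights (`Jx W x ⊂ Jx W y`:
`Fh s y ≥ Fh s x + n / K - 2 κ > Fh s x`), impossible. D1 with `Y = ⊤`, `m = r`, `H = n + κ`: first alternative:
`2 ^ c ≤ ∏_{i ∈ I} h_i ≤ (∑_{i ∈ I} h_i / r) ^ r ≤ ((n + κ) / r) ^ r` (means); second alternative: `2 ^ c ≤ (2 K) ^ K (n + κ) ^ (r - 1)`. -/
def StD2 : Prop := ∀ (K r : ℕ) (κ : ℝ), 1 ≤ K → 1 ≤ r → ∃ (A : ℝ) (n₀ : ℕ), ∀ n : ℕ, n₀ ≤ n →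
  ∀ (c k : ℕ) (s : Fin n → E c) (W : Fin k → Submodule (ZMod 2) (E c)), k ≤ K →
  (∀ j, n ≤ K * Nat.card (perp (W j))) →
  (∀ x, |Fh s x - ∑ j ∈ Jx W x, (Nat.card (perp (W j)) : ℝ)| ≤ κ) →
  (∀ x, x ≠ 0 → n ≤ K * wt s x) → (Om s).card ≤ r →
  (2 : ℝ) ^ c ≤ (((n : ℝ) + κ) / r) ^ r ∨ (2 : ℝ) ^ c ≤ A * (n : ℝ) ^ (r - 1)

/-- (M, assume `hA2 : StA2`, `hP : StPOS`, `hC : StC10`, `hD : StD2`.) The main inequality. PROOF. If `2 ^ c < (n / r) ^ r` there is nothing to do (`κ ≥ 0`). Otherwise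
A2 gives `D`, `K = (2 r) ^ r`; POS (`n ^ r ≤ r ^ r 2 ^ c ≤ K 2 ^ c`) gives `Hyp K T D s` with `T = 2 K ^ 2` (for large `n`, `D ≥ n / K ≥ T`); C10 gives the `W j`; D2 (for
`x ≠ 0`: `n ≤ K D ≤ K wt s x`, faithful) gives the bound, as `A n ^ (r - 1) < (n / r) ^ r` for large `n`. -/
def StM : Prop := ∀ r : ℕ, 1 ≤ r → ∃ (κ : ℝ) (n₀ : ℕ), 0 ≤ κ ∧ ∀ n : ℕ, n₀ ≤ n → ∀ (c : ℕ) (s : Fin n → E c),
  Faithful s → Proj s → (Om s).card ≤ r → (2 : ℝ) ^ c ≤ (((n : ℝ) + κ) / r) ^ r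

/-! ## E. codes -/

/-- (TR, no hypotheses.) The parity check matrix. PROOF. `c` the dimension of `dual V`, `φ : E c → dual V` a basis, `s i` the vector of the coordinates `i` of the basis
elements: `x · s i = (φ x) i`. So `wt s x = hammingNorm (φ x)`: faithful, `Om s = dw V`, `|V| 2 ^ c = 2 ^ n` (`card_perp`). `∑ i, u i • s i = 0` iff `u` is
orthogonal to all `φ x`, i.e. `u ∈ perp (perp V) = V`. If `s i = 0` then `V` contains the `i`-th unit vector (weight `1`), if `s i = s j`, `i ≠ j`, it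
contains a vector of weight `2`. -/
def StTR : Prop := ∀ (n : ℕ) (V : Submodule (ZMod 2) (Fin n → ZMod 2)),
  (∀ v ∈ V, v ≠ 0 → 3 ≤ hammingNorm v) →
  ∃ (c : ℕ) (s : Fin n → E c), Faithful s ∧ Proj s ∧ Nat.card V * 2 ^ c = 2 ^ n ∧ Om s = dw V ∧
    ∀ u : Fin n → ZMod 2, u ∈ V ↔ ∑ i, u i • s i = 0

/-- (DE, no hypotheses.) Delsarte's bound for the covering radius. PROOF. Let `P` be the polynomial `∏_{ω ∈ Om s} (X - (n - 2 ω))`, of degree at most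
`r`. `∑_x P(Fh s x) chi x y = P(n) = ∏ 2 ω ≠ 0` (only `x = 0`). If `y` is not a sum of at most `r` columns then
`∑_x (Fh s x) ^ k chi x y = 2 ^ c #{(i_1, ..., i_k) : ∑ s i_j = y} = 0` for all `k ≤ r`, contradiction. (A sum over a `k`-tuple is
`∑_i u i • s i` with `u` the sum of the unit vectors, of weight at most `k`.) -/
def StDE : Prop := ∀ (c n r : ℕ) (s : Fin n → E c), Faithful s → (Om s).card ≤ r →
  ∀ y : E c, ∃ u : Fin n → ZMod 2, hammingNorm u ≤ r ∧ ∑ i, u i • s i = y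

/-- (BN, no hypotheses.) PROOF. The number of words of weight `r` is `C(n, r) ≥ (n - r) ^ r / r!`, and
`(n - r) ^ r / (n + κ) ^ r → 1`. -/
def StBN : Prop := ∀ (r : ℕ) (κ ε : ℝ), 1 ≤ r → 0 ≤ κ → 0 < ε → ∃ n₀ : ℕ, ∀ n : ℕ, n₀ ≤ n →
  (1 - ε) * ((r : ℝ) ^ r / r.factorial) * (((n : ℝ) + κ) / r) ^ r ≤
    ((univ.filter (fun x : Fin n → ZMod 2 => hammingNorm x ≤ r)).card : ℕ)

/-- (SH, no hypotheses.) Direct sums of Hamming codes. PROOF. `m` large, `n = r (2 ^ m - 1)`; identify `Fin n` with the pairs `(j, v)`, `j : Fin r`, `v ≠ 0` in `E m`; `V` = the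
`u` with `∑_v u (j, v) • v = 0` for all `j`. `V` has `2 ^ (n - r m)` elements and no element of weight `1` or `2`. The dual code
consists of the words `(j, v) ↦ x j · v`, `x : Fin r → E m`, of weight `2 ^ (m - 1) #{j : x j ≠ 0}` (`sum_chi'`): at most `r` nonzero weights. The number of
words of weight at most `r` is at most `n ^ r / r! + r n ^ (r - 1)`, `2 ^ (r m) = (n / r + 1) ^ r`: the density is at most
`(r / n) ^ r (n ^ r / r! + r n ^ (r - 1)) → r ^ r / r!`. -/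
def StSH : Prop := ∀ (r : ℕ) (ε : ℝ) (M : ℕ), 1 ≤ r → 0 < ε → ∃ (n : ℕ) (V : Submodule (ZMod 2) (Fin n → ZMod 2)),
  M ≤ n ∧ (∀ v ∈ V, v ≠ 0 → 3 ≤ hammingNorm v) ∧ (dw V).card ≤ r ∧
  dens V r ≤ (1 + ε) * ((r : ℝ) ^ r / r.factorial)

/-- (FIN, assume `hTR : StTR`, `hDE : StDE`, `hBN : StBN`, `hM : StM`, `hSH : StSH`.) -/
def StFIN : Prop := ∀ r : ℕ, 1 ≤ r →
  (∀ ε : ℝ, 0 < ε → ∃ n₀ : ℕ, ∀ n : ℕ, n₀ ≤ n → ∀ V : Submodule (ZMod 2) (Fin n → ZMod 2),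
    (∀ v ∈ V, v ≠ 0 → 3 ≤ hammingNorm v) → (dw V).card ≤ r →
    (∀ y : Fin n → ZMod 2, ∃ v ∈ V, hammingNorm (y - v) ≤ r) ∧
    (1 - ε) * ((r : ℝ) ^ r / r.factorial) ≤ dens V r) ∧
  (∀ (ε : ℝ) (M : ℕ), 0 < ε → ∃ (n : ℕ) (V : Submodule (ZMod 2) (Fin n → ZMod 2)),
    M ≤ n ∧ (∀ v ∈ V, v ≠ 0 → 3 ≤ hammingNorm v) ∧ (dw V).card ≤ r ∧
    dens V r ≤ (1 + ε) * ((r : ℝ) ^ r / r.factorial)) ∧
  (2 : ℝ) ^ (r - 1) ≤ (r : ℝ) ^ r / r.factorial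

end Pool.Agent.Helper30.UP
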